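import Pool.Agent.Run7.h962.EConn2

namespace Run7.h962

/-- `r`-connected: more than `r` vertices, and no set of fewer than `r` vertices disconnects -/
def RConn {V : Type} [Fintype V] (r : ℕ) (G : SimpleGraph V) : Prop :=
  r < Fintype.card V ∧ ∀ R : Finset V, R.card < r → (G.induce {v | v ∉ R}).Connected

/-- cyclically `s`-edge-connected: no set `F` of fewer than `s` edges can be deleted so as to
leave two components that each contain a cycle -/
def CycConn {V : Type} (s : ℕ) (G : SimpleGraph V) : Prop :=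
  ∀ F : Finset (Sym2 V), F.card < s →
    ∀ C₁ C₂ : (G.deleteEdges (F : Set (Sym2 V))).ConnectedComponent, C₁ ≠ C₂ →
      ¬ ((∃ v ∈ C₁.supp, ∃ p : (G.deleteEdges (F : Set (Sym2 V))).Walk v v, p.IsCycle) ∧
        (∃ v ∈ C₂.supp, ∃ p : (G.deleteEdges (F : Set (Sym2 V))).Walk v v, p.IsCycle))

section
variable {T G' : Type} [Fintype T] [DecidableEq T] [Fintype G'] [DecidableEq G'] {r : ℕ}
  {n : Fin 3 → ℕ} (e : T × Fin 3 ≃ (G' × Fin 3) × Fin r)

lemma sum_wd : wd n 0 + wd n 1 + wd n 2 = 2 * (n 0 + n 1 + n 2) := by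
  unfold wd
  have e1 : (0 : Fin 3) + 2 = 2 := by decide
  have e2 : (1 : Fin 3) + 2 = 0 := by decide
  have e3 : (2 : Fin 3) + 2 = 1 := by decide
  rw [e1, e2, e3]
  ring

lemma card_Vt : Fintype.card (Vt T G' r n) =
    6 * Fintype.card T * r + 2 * (n 0 + n 1 + n 2) * Fintype.card G' := by
  rw [← sum_wd]
  simp only [Vt, Fintype.card_sum, Fintype.card_prod, Fintype.card_fin, Fintype.card_sigma,
    Fin.sum_univ_three]
  ring

theorem rconn (hn : ∀ x, 2 ≤ n x) (hk : ∀ x, wd n x ≤ r) (he : ∀ d, (e d).1.2 = d.2)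
    (hw : ∀ x, r ≤ 2 * wd n x) (hr : 0 < r) (hconn : TwoConn e)
    (hT : Nonempty T) : RConn r (Gr n e) := by
  classical
  have hTc : 1 ≤ Fintype.card T := Fintype.card_pos
  have hcard : r < Fintype.card (Vt T G' r n) := by
    rw [card_Vt]
    have : r ≤ Fintype.card T * r := Nat.le_mul_of_pos_left r hTc
    have h2 : 6 * Fintype.card T * r = 6 * (Fintype.card T * r) := by ring
    omega
  refine ⟨hcard, ?_⟩
  intro R hR
  have hne : ∃ v, v ∉ R := by
    by_contra h
    push Not at h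
    have : Fintype.card (Vt T G' r n) ≤ R.card := by
      rw [← Finset.card_univ]
      exact Finset.card_le_card (fun v _ => h v)
    omega
  obtain ⟨v0, hv0⟩ := hne
  haveI : Nonempty ({v | v ∉ R} : Set (Vt T G' r n)) := ⟨⟨v0, hv0⟩⟩
  refine ⟨?_⟩
  rintro ⟨u, hu⟩ ⟨v, hv⟩
  have hu' : u ∉ R := hu
  have hv' : v ∉ R := hv
  set P : Vt T G' r n → Prop := fun w => ∃ h : w ∉ R,
    ((Gr n e).induce {v | v ∉ R}).Reachable ⟨u, hu⟩ ⟨w, h⟩ with hPdef
  have hP : ∀ u v, u ∉ R → v ∉ R → (Gr n e).Adj u v → (P u ↔ P v) := by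
    intro x y hx hy hxy
    constructor
    · rintro ⟨_, h⟩
      exact ⟨hy, h.trans (SimpleGraph.Adj.reachable (by simpa using hxy))⟩
    · rintro ⟨_, h⟩
      exact ⟨hx, h.trans (SimpleGraph.Adj.reachable (by simpa using hxy.symm))⟩
  have := (vconst e hn hk he hw hconn R hR P hP u v hu' hv').1 ⟨hu', SimpleGraph.Reachable.refl _⟩
  exact this.2

lemma cyc_no (H' : SimpleGraph (Vt T G' r n)) (hG : H' ≤ Gr n e) (Q : Vt T G' r n → Prop)
    (hQ : ∀ v v', Q v → Q v' → (∀ g x i, v ≠ vq g x i) → (∀ g x i, v' ≠ vq g x i) → v = v')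
    (u : Vt T G' r n) (p : H'.Walk u u) (hp : p.IsCycle) (hall : ∀ w ∈ p.support, Q w) :
    False := by
  classical
  -- every vertex of the cycle has two distinct neighbours on the cycle
  have key : ∀ w ∈ p.support, ∃ x y, x ≠ y ∧ x ∈ p.support ∧ y ∈ p.support ∧
      H'.Adj w x ∧ H'.Adj w y := by
    intro w hw
    have h2 := hp.ncard_neighborSet_toSubgraph_eq_two hw
    obtain ⟨x, y, hxy, hset⟩ := Set.ncard_eq_two.1 h2
    have hx : x ∈ p.toSubgraph.neighborSet w := by rw [hset]; simp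
    have hy : y ∈ p.toSubgraph.neighborSet w := by rw [hset]; simp
    refine ⟨x, y, hxy, ?_, ?_, hx.adj_sub, hy.adj_sub⟩
    · have : x ∈ p.toSubgraph.verts := p.toSubgraph.edge_vert hx.symm
      simpa using this
    · have : y ∈ p.toSubgraph.verts := p.toSubgraph.edge_vert hy.symm
      simpa using this
  have nonreal : ∀ w ∈ p.support, ∀ g c i, w ≠ vq g c i := by
    rintro w hw g c i rfl
    obtain ⟨x, y, hxy, hx, hy, hwx, hwy⟩ := key _ hw
    have h1 : ∀ z, H'.Adj (vq g c i) z → ∀ g' c' i', z ≠ vq g' c' i' := by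
      rintro z hz g' c' i' rfl
      exact (adj_qq e _ _ _ _ _ _).1 (hG hz)
    exact hxy (hQ x y (hall x hx) (hall y hy) (h1 x hwx) (h1 y hwy))
  obtain ⟨x, y, hxy, hx, hy, _, _⟩ := key u p.start_mem_support
  exact hxy (hQ x y (hall x hx) (hall y hy) (nonreal x hx) (nonreal y hy))

theorem cycconn (hr : 6 ≤ r) (s : ℕ) (hk : ∀ x, wd n x ≤ r) (hs : ∀ x, s ≤ 2 * wd n x)
    (hsr : 3 * s < 4 * r) (hconn : TwoConn e) :
    CycConn s (Gr n e) := by
  classical
  intro F hF C₁ C₂ hne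
  rintro ⟨⟨v1, hv1, p1, hp1⟩, ⟨v2, hv2, p2, hp2⟩⟩
  have hsup : ∀ (C : ((Gr n e).deleteEdges (F : Set (Sym2 (Vt T G' r n)))).ConnectedComponent)
      (v : Vt T G' r n) (hv : v ∈ C.supp)
      (p : ((Gr n e).deleteEdges (F : Set (Sym2 (Vt T G' r n)))).Walk v v),
      ∀ w ∈ p.support, w ∈ C.supp := by
    intro C v hv p w hw
    have h1 : ((Gr n e).deleteEdges (F : Set (Sym2 (Vt T G' r n)))).Reachable v w :=
      ⟨p.takeUntil w hw⟩
    rw [SimpleGraph.ConnectedComponent.mem_supp_iff] at hv ⊢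
    rw [← hv]
    exact (SimpleGraph.ConnectedComponent.eq.2 h1).symm
  have hX : (Xs (Gr n e) (fun w => w ∈ C₁.supp)).card < s := by
    refine lt_of_le_of_lt ?_ hF
    apply Finset.card_le_card_of_injOn (fun x => s(x.1, x.2))
    · intro x hx
      rw [Finset.mem_coe, mem_Xs] at hx
      obtain ⟨h1, h2, h3⟩ := hx
      by_contra hnot
      apply h3
      have hadj : ((Gr n e).deleteEdges (F : Set (Sym2 (Vt T G' r n)))).Adj x.1 x.2 := by
        rw [SimpleGraph.deleteEdges_adj]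
        exact ⟨h1, hnot⟩
      rw [SimpleGraph.ConnectedComponent.mem_supp_iff] at h2 ⊢
      rw [← h2]
      exact (SimpleGraph.ConnectedComponent.eq.2 hadj.reachable).symm
    · intro x hx y hy hxy
      rw [Finset.mem_coe, mem_Xs] at hx hy
      dsimp only at hxy
      rw [Sym2.eq_iff] at hxy
      rcases hxy with h | h
      · exact Prod.ext h.1 h.2
      · exfalso
        apply hy.2.2
        rw [← h.1]
        exact hx.2.1
  rcases econst e hr s hk hs hsr hconn _ hX with h | h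
  · exact cyc_no e _ (SimpleGraph.deleteEdges_le _) (fun w => w ∈ C₁.supp) h v1 p1 hp1
      (hsup C₁ v1 hv1 p1)
  · refine cyc_no e _ (SimpleGraph.deleteEdges_le _) (fun w => ¬ w ∈ C₁.supp) h v2 p2 hp2 ?_
    intro w hw hw1
    have hw2 := hsup C₂ v2 hv2 p2 w hw
    rw [SimpleGraph.ConnectedComponent.mem_supp_iff] at hw1 hw2
    exact hne (hw1.symm.trans hw2)

end

end Run7.h962
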