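import Pool.Agent.Run7.h962.Conn

namespace Run7.h962

open Classical in
/-- indicator of the edges of a subgraph -/
noncomputable def ind {V : Type} {G : SimpleGraph V} (H : G.Subgraph) (u v : V) : ℕ :=
  if H.Adj u v then 1 else 0

lemma ind_symm {V : Type} {G : SimpleGraph V} (H : G.Subgraph) (u v : V) :
    ind H u v = ind H v u := by
  unfold ind
  by_cases h : H.Adj u v
  · rw [if_pos h, if_pos h.symm]
  · rw [if_neg h, if_neg (fun h' => h h'.symm)]

lemma ind_of_not {V : Type} {G : SimpleGraph V} (H : G.Subgraph) (u v : V) (h : ¬ G.Adj u v) :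
    ind H u v = 0 := by
  unfold ind; rw [if_neg]; intro h'; exact h h'.adj_sub

lemma sum_ind {V : Type} [Fintype V] {G : SimpleGraph V} (H : G.Subgraph) (u : V) :
    ∑ v, ind H u v = (H.neighborSet u).ncard := by
  classical
  unfold ind
  rw [Finset.sum_boole, Set.ncard_eq_toFinset_card']
  simp only [Nat.cast_id]
  congr 1
  ext v
  simp

section
variable {T G' : Type} [Fintype T] [DecidableEq T] [Fintype G'] [DecidableEq G'] {r : ℕ}
  {n : Fin 3 → ℕ} (e : T × Fin 3 ≃ (G' × Fin 3) × Fin r) (H : (Gr n e).Subgraph)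

lemma sum_Vt (f : Vt T G' r n → ℕ) :
    ∑ v, f v = (∑ x : (T × Fin 3) × Fin r, f (Sum.inl x)) +
      ((∑ x : (T × Fin 3) × Fin r, f (Sum.inr (Sum.inl x))) +
        ∑ x : G' × (Σ x : Fin 3, Fin (wd n x)), f (Sum.inr (Sum.inr x))) := by
  rw [Fintype.sum_sum_type, Fintype.sum_sum_type]

/-- edges inside a block -/
noncomputable def Ein (d : T × Fin 3) : ℕ := ∑ i : Fin r, ∑ j : Fin r, ind H (va d i) (vb d j)

/-- edges from the a-side of the block -/
noncomputable def cA (d : T × Fin 3) : ℕ :=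
  ∑ i : Fin r, ∑ x : (T × Fin 3) × Fin r, ind H (va d i) (Sum.inl x)

/-- edges from the b-side of the block -/
noncomputable def cB (d : T × Fin 3) : ℕ :=
  ∑ j : Fin r, ∑ x : G' × (Σ x : Fin 3, Fin (wd n x)), ind H (vb d j) (Sum.inr (Sum.inr x))

lemma degA (d : T × Fin 3) (i : Fin r) :
    ∑ v, ind H (va d i) v = (∑ x : (T × Fin 3) × Fin r, ind H (va d i) (Sum.inl x)) +
      ∑ j : Fin r, ind H (va d i) (vb d j) := by
  rw [sum_Vt]
  have h1 : ∑ x : G' × (Σ x : Fin 3, Fin (wd n x)), ind H (va d i) (Sum.inr (Sum.inr x)) = 0 := by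
    apply Finset.sum_eq_zero
    rintro ⟨g, x⟩ _
    exact ind_of_not H _ _ (fun h => h.elim)
  have h2 : ∑ x : (T × Fin 3) × Fin r, ind H (va d i) (Sum.inr (Sum.inl x)) =
      ∑ j : Fin r, ind H (va d i) (vb d j) := by
    rw [Fintype.sum_prod_type]
    rw [Finset.sum_eq_single d]
    · intro d' _ hd'
      apply Finset.sum_eq_zero
      intro j _
      exact ind_of_not H _ _ (by
        rw [adj_ab]; rintro ⟨h, _⟩; exact hd' h.symm)
    · intro h; exact absurd (Finset.mem_univ _) h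
  rw [h1, h2, add_zero]

lemma degB (d : T × Fin 3) (j : Fin r) :
    ∑ v, ind H (vb d j) v = (∑ x : G' × (Σ x : Fin 3, Fin (wd n x)), ind H (vb d j) (Sum.inr (Sum.inr x))) +
      ∑ i : Fin r, ind H (va d i) (vb d j) := by
  rw [sum_Vt]
  have h1 : ∑ x : (T × Fin 3) × Fin r, ind H (vb d j) (Sum.inr (Sum.inl x)) = 0 := by
    apply Finset.sum_eq_zero
    rintro ⟨g, x⟩ _
    exact ind_of_not H _ _ (fun h => h.elim)
  have h2 : ∑ x : (T × Fin 3) × Fin r, ind H (vb d j) (Sum.inl x) =
      ∑ i : Fin r, ind H (va d i) (vb d j) := by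
    rw [Fintype.sum_prod_type]
    rw [Finset.sum_eq_single d]
    · apply Finset.sum_congr rfl
      intro i _
      exact ind_symm H _ _
    · intro d' _ hd'
      apply Finset.sum_eq_zero
      intro j _
      exact ind_of_not H _ _ (by
        rw [adj_ba]; rintro ⟨h, _⟩; exact hd' h)
    · intro h; exact absurd (Finset.mem_univ _) h
  rw [h1, h2, zero_add, add_comm]

lemma sumA (d : T × Fin 3) :
    ∑ i : Fin r, ∑ v, ind H (va d i) v = cA e H d + Ein e H d := by
  unfold cA Ein
  rw [← Finset.sum_add_distrib]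
  exact Finset.sum_congr rfl (fun i _ => degA e H d i)

lemma sumB (d : T × Fin 3) :
    ∑ j : Fin r, ∑ v, ind H (vb d j) v = cB e H d + Ein e H d := by
  unfold cB Ein
  rw [Finset.sum_comm (f := fun i j => ind H (va d i) (vb d j)), ← Finset.sum_add_distrib]
  exact Finset.sum_congr rfl (fun i _ => degB e H d i)

/-- all crossings of the b-sides end in the vertices `q` -/
lemma sum_cB : ∑ d, cB e H d ≤ ∑ x : G' × (Σ x : Fin 3, Fin (wd n x)), ∑ v, ind H (Sum.inr (Sum.inr x)) v := by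
  unfold cB
  have : ∑ d : T × Fin 3, ∑ j : Fin r, ∑ x : G' × (Σ x : Fin 3, Fin (wd n x)),
      ind H (vb d j) (Sum.inr (Sum.inr x)) =
      ∑ x : G' × (Σ x : Fin 3, Fin (wd n x)), ∑ y : (T × Fin 3) × Fin r,
        ind H (Sum.inr (Sum.inr x)) (Sum.inr (Sum.inl y)) := by
    have h1 : ∑ d : T × Fin 3, ∑ j : Fin r, ∑ x : G' × (Σ x : Fin 3, Fin (wd n x)),
        ind H (vb d j) (Sum.inr (Sum.inr x)) =
        ∑ y : (T × Fin 3) × Fin r, ∑ x : G' × (Σ x : Fin 3, Fin (wd n x)),
        ind H (Sum.inr (Sum.inl y)) (Sum.inr (Sum.inr x)) := by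
      rw [Fintype.sum_prod_type (γ := ℕ) (fun y : (T × Fin 3) × Fin r =>
        ∑ x : G' × (Σ x : Fin 3, Fin (wd n x)), ind H (Sum.inr (Sum.inl y)) (Sum.inr (Sum.inr x)))]
    rw [h1, Finset.sum_comm]
    exact Finset.sum_congr rfl (fun x _ => Finset.sum_congr rfl (fun y _ => ind_symm H _ _))
  rw [this]
  apply Finset.sum_le_sum
  intro x _
  rw [sum_Vt]
  omega

/-- edges of the triple from the block `d` to the next one -/
noncomputable def fA (d : T × Fin 3) : ℕ :=
  ∑ j ∈ Finset.range (n d.2), if h : j + n (d.2 + 1) < r then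
    ind H (va d ⟨j, by omega⟩) (va (d.1, d.2 + 1) ⟨j + n (d.2 + 1), h⟩) else 0

lemma cA_eq (hk : ∀ x, wd n x ≤ r) (d : T × Fin 3) : cA e H d = fA e H d + fA e H (d.1, d.2 - 1) := by
  classical
  unfold cA
  have h0 : ∀ i : Fin r, ∑ x : (T × Fin 3) × Fin r, ind H (va d i) (Sum.inl x) =
      if (i : ℕ) < wd n d.2 then ind H (va d i) (Sum.inl (prt hk d i)) else 0 := by
    intro i
    split_ifs with hi
    · rw [Finset.sum_eq_single (prt hk d i)]
      · rintro ⟨d', i'⟩ _ hne
        exact ind_of_not H _ _ (fun h => hne ((adj_prt hk d i hi d' i').1 h))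
      · intro h; exact absurd (Finset.mem_univ _) h
    · apply Finset.sum_eq_zero
      rintro ⟨d', i'⟩ _
      exact ind_of_not H _ _ (fun h => hi (hubR_lt h))
  simp only [h0]
  have hwd := wd_eq (n := n) d.2
  have hkd := hk d.2
  set g : ℕ → ℕ := fun j => if j < n d.2 then (if h : j + n (d.2 + 1) < r then
    ind H (va d ⟨j, by omega⟩) (va (d.1, d.2 + 1) ⟨j + n (d.2 + 1), h⟩) else 0) else
    (if h : j < r ∧ j < wd n d.2 then
      ind H (va d ⟨j, h.1⟩) (va (d.1, d.2 - 1) ⟨j - n d.2, by omega⟩) else 0) with hg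
  have h1 : ∀ i : Fin r, (if (i : ℕ) < wd n d.2 then
      ind H (va d i) (Sum.inl (prt hk d i)) else 0) = g i := by
    intro i
    rw [hg]
    dsimp only
    by_cases h1 : (i : ℕ) < n d.2
    · have h3 : (i : ℕ) + n (d.2 + 1) < r := by
        have := hk (d.2 + 1); rw [wd_succ] at this; omega
      rw [if_pos (by omega), if_pos h1, dif_pos h3, prt_of_lt hk d i h1]
    · rw [if_neg h1]
      by_cases h2 : (i : ℕ) < wd n d.2
      · rw [if_pos h2, dif_pos ⟨i.2, h2⟩, prt_of_ge hk d i h1]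
      · rw [if_neg h2, dif_neg (fun h => h2 h.2)]
  simp only [h1]
  rw [Fin.sum_univ_eq_sum_range g r]
  have h4 : ∑ i ∈ Finset.range r, g i = ∑ i ∈ Finset.range (wd n d.2), g i := by
    symm
    apply Finset.sum_subset
    · intro i hi
      rw [Finset.mem_range] at hi ⊢
      omega
    · intro i _ hi
      rw [Finset.mem_range] at hi
      rw [hg]
      dsimp only
      rw [if_neg (by omega), dif_neg (by omega)]
  rw [h4, hwd, Finset.sum_range_add]
  congr 1
  · unfold fA
    apply Finset.sum_congr rfl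
    intro j hj
    rw [hg]
    dsimp only
    rw [if_pos (Finset.mem_range.1 hj)]
  · unfold fA
    dsimp only
    apply Finset.sum_congr rfl
    intro j hj
    have hj' := Finset.mem_range.1 hj
    rw [hg]
    dsimp only
    have h5 : j + n (d.2 - 1 + 1) < r := by rw [f3b]; omega
    rw [if_neg (by omega), dif_pos (by omega), dif_pos h5, ind_symm]
    have e1 : (⟨n d.2 + j - n d.2, by omega⟩ : Fin r) = ⟨j, by omega⟩ := by
      apply Fin.ext; simp
    have e2 : (⟨n d.2 + j, by omega⟩ : Fin r) = ⟨j + n (d.2 - 1 + 1), h5⟩ := by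
      apply Fin.ext
      change n d.2 + j = j + n (d.2 - 1 + 1)
      rw [f3b]
      omega
    have e3 : (d.1, d.2 - 1 + 1) = d := Prod.ext rfl (f3b d.2)
    rw [e1, e2]
    simp only [e3]

end

end Run7.h962
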