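import Pool.Agent.Run7.h962.Cycle

namespace Run7.h962

section
variable {T G' : Type} [Fintype T] [DecidableEq T] [Fintype G'] [DecidableEq G'] {r : ℕ}
  {n : Fin 3 → ℕ} (e : T × Fin 3 ≃ (G' × Fin 3) × Fin r)

lemma deg_cyc {v0 : Vt T G' r n} (p : (Gr n e).Walk v0 v0) (hp : p.IsCycle) (v : Vt T G' r n)
    (hv : v ∈ p.support) : ∑ u, ind p.toSubgraph v u = 2 := by
  rw [sum_ind]; exact hp.ncard_neighborSet_toSubgraph_eq_two hv

lemma deg_cyc_le {v0 : Vt T G' r n} (p : (Gr n e).Walk v0 v0) (hp : p.IsCycle)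
    (v : Vt T G' r n) : ∑ u, ind p.toSubgraph v u ≤ 2 := by
  by_cases hv : v ∈ p.support
  · exact (deg_cyc e p hp v hv).le
  · have : ∑ u, ind p.toSubgraph v u = 0 := by
      apply Finset.sum_eq_zero
      intro u _
      unfold ind
      rw [if_neg]
      intro h
      apply hv
      have := p.toSubgraph.edge_vert h
      simpa using this
    omega

/-- all vertices of the block are on the cycle -/
def Full {v0 : Vt T G' r n} (p : (Gr n e).Walk v0 v0) (d : T × Fin 3) : Prop :=
  (∀ i, (va d i : Vt T G' r n) ∈ p.support) ∧ (∀ i, (vb d i : Vt T G' r n) ∈ p.support)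

lemma full_eq {v0 : Vt T G' r n} (p : (Gr n e).Walk v0 v0) (hp : p.IsCycle) (d : T × Fin 3)
    (hd : Full e p d) : cA e p.toSubgraph d = cB e p.toSubgraph d := by
  have h1 := sumA e p.toSubgraph d
  have h2 := sumB e p.toSubgraph d
  rw [Finset.sum_congr rfl (fun i _ => deg_cyc e p hp _ (hd.1 i))] at h1
  rw [Finset.sum_congr rfl (fun i _ => deg_cyc e p hp _ (hd.2 i))] at h2
  omega

/-- block of `d` as a set of vertices -/
def blk (d : T × Fin 3) : Set (Vt T G' r n) :=
  {v | (∃ i, v = va d i) ∨ (∃ i, v = vb d i)}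

lemma full_pos {v0 : Vt T G' r n} (hr : 0 < r) (p : (Gr n e).Walk v0 v0) (hp : p.IsCycle)
    (d : T × Fin 3) (hd : Full e p d) (hc : ¬ ∀ v ∈ p.support, v ∈ blk d) :
    1 ≤ cB e p.toSubgraph d := by
  classical
  push Not at hc
  obtain ⟨u, hu, hub⟩ := hc
  have hconn := p.toSubgraph_connected
  have ha : (va d ⟨0, hr⟩ : Vt T G' r n) ∈ p.toSubgraph.verts := by
    simpa using hd.1 ⟨0, hr⟩
  have hu' : u ∈ p.toSubgraph.verts := by simpa using hu
  obtain ⟨w⟩ := hconn.coe.preconnected ⟨_, ha⟩ ⟨_, hu'⟩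
  obtain ⟨dd, _, hd1, hd2⟩ := w.exists_boundary_dart {x | x.1 ∈ blk d} (Or.inl ⟨_, rfl⟩) hub
  obtain ⟨⟨⟨x, hx⟩, ⟨y, hy⟩⟩, hxy⟩ := dd
  have hadj : p.toSubgraph.Adj x y := hxy
  have hG : (Gr n e).Adj x y := hadj.adj_sub
  have heq := full_eq e p hp d hd
  replace hd1 : x ∈ blk d := hd1
  replace hd2 : y ∉ blk d := hd2
  rcases hd1 with ⟨i, rfl⟩ | ⟨i, rfl⟩
  · rcases y with ⟨d', i'⟩ | ⟨d', i'⟩ | ⟨g, i'⟩
    · have : 1 ≤ cA e p.toSubgraph d := by
        unfold cA
        have h1 : ind p.toSubgraph (va d i) (Sum.inl (d', i')) = 1 := by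
          unfold ind; rw [if_pos hadj]
        calc 1 = ind p.toSubgraph (va d i) (Sum.inl (d', i')) := h1.symm
          _ ≤ ∑ x : (T × Fin 3) × Fin r, ind p.toSubgraph (va d i) (Sum.inl x) :=
            Finset.single_le_sum (f := fun x => ind p.toSubgraph (va d i) (Sum.inl x))
              (fun _ _ => Nat.zero_le _) (Finset.mem_univ _)
          _ ≤ _ := Finset.single_le_sum
            (f := fun i => ∑ x : (T × Fin 3) × Fin r, ind p.toSubgraph (va d i) (Sum.inl x))
              (fun _ _ => Nat.zero_le _) (Finset.mem_univ _)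
      omega
    · exfalso
      apply hd2
      rw [adj_ab] at hG
      exact Or.inr ⟨i', by rw [hG.1]⟩
    · exact hG.elim
  · rcases y with ⟨d', i'⟩ | ⟨d', i'⟩ | ⟨g, i'⟩
    · exfalso
      apply hd2
      rw [adj_ba] at hG
      exact Or.inl ⟨i', by rw [hG.1]⟩
    · exact hG.elim
    · unfold cB
      have h1 : ind p.toSubgraph (vb d i) (Sum.inr (Sum.inr (g, i'))) = 1 := by
        unfold ind; rw [if_pos hadj]
      calc 1 = ind p.toSubgraph (vb d i) (Sum.inr (Sum.inr (g, i'))) := h1.symm
        _ ≤ ∑ x : G' × (Σ x : Fin 3, Fin (wd n x)), ind p.toSubgraph (vb d i) (Sum.inr (Sum.inr x)) :=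
          Finset.single_le_sum (f := fun x => ind p.toSubgraph (vb d i) (Sum.inr (Sum.inr x)))
            (fun _ _ => Nat.zero_le _) (Finset.mem_univ _)
        _ ≤ _ := Finset.single_le_sum
          (f := fun i => ∑ x : G' × (Σ x : Fin 3, Fin (wd n x)), ind p.toSubgraph (vb d i) (Sum.inr (Sum.inr x)))
            (fun _ _ => Nat.zero_le _) (Finset.mem_univ _)

/-- good triples need four crossings -/
lemma good_four {v0 : Vt T G' r n} (hr : 0 < r) (hk : ∀ x, wd n x ≤ r) (p : (Gr n e).Walk v0 v0)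
    (hp : p.IsCycle) (t : T) (hd : ∀ x, Full e p (t, x))
    (hc : ∀ d, ¬ ∀ v ∈ p.support, v ∈ blk d) :
    4 ≤ ∑ x, cB e p.toSubgraph (t, x) := by
  have h1 : ∀ x, 1 ≤ cB e p.toSubgraph (t, x) := fun x => full_pos e hr p hp _ (hd x) (hc _)
  have h2 : ∀ x, cB e p.toSubgraph (t, x) = fA e p.toSubgraph (t, x) +
      fA e p.toSubgraph (t, x - 1) := by
    intro x
    rw [← full_eq e p hp _ (hd x), cA_eq e p.toSubgraph hk]
  rw [Fin.sum_univ_three]
  have a0 := h1 0
  have a1 := h1 1
  have a2 := h1 2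
  have e0 : (0 : Fin 3) - 1 = 2 := by decide
  have e1 : (1 : Fin 3) - 1 = 0 := by decide
  have e2 : (2 : Fin 3) - 1 = 1 := by decide
  have b0 := h2 0
  have b1 := h2 1
  have b2 := h2 2
  rw [e0] at b0
  rw [e1] at b1
  rw [e2] at b2
  omega

omit [DecidableEq T] [DecidableEq G'] in
lemma card_e (e : T × Fin 3 ≃ (G' × Fin 3) × Fin r) :
    Fintype.card T = Fintype.card G' * r := by
  have := Fintype.card_congr e
  simp only [Fintype.card_prod, Fintype.card_fin] at this
  have h2 : Fintype.card T * 3 = (Fintype.card G' * r) * 3 := by rw [this]; ring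
  omega

open Classical in
/-- main count: a cycle misses many vertices -/
theorem miss {v0 : Vt T G' r n} (hr : 0 < r) (hk : ∀ x, wd n x ≤ r) (p : (Gr n e).Walk v0 v0)
    (hp : p.IsCycle) (hc : ∀ d, ¬ ∀ v ∈ p.support, v ∈ blk d) :
    ∃ bad : ℕ, p.length + bad ≤ Fintype.card (Vt T G' r n) ∧
      r * Fintype.card T ≤ r * bad + (n 0 + n 1 + n 2) * Fintype.card T := by
  set S : Finset (Vt T G' r n) := Finset.univ.filter (fun v => v ∈ p.support) with hS
  set good : Finset T := Finset.univ.filter (fun t => ∀ x, Full e p (t, x)) with hgood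
  have hlen : p.length ≤ S.card := by
    have h1 : p.support.tail.toFinset.card = p.length := by
      rw [List.toFinset_card_of_nodup hp.support_nodup, List.length_tail,
        SimpleGraph.Walk.length_support]
      simp
    rw [← h1]
    apply Finset.card_le_card
    intro v hv
    rw [List.mem_toFinset] at hv
    rw [hS, Finset.mem_filter]
    exact ⟨Finset.mem_univ _, List.mem_of_mem_tail hv⟩
  -- missing vertices
  have hbad : (goodᶜ).card ≤ (Sᶜ).card := by
    have hex : ∀ t, ∃ v : Vt T G' r n, t ∈ goodᶜ → (v ∈ Sᶜ ∧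
        ∃ x i, v = va (t, x) i ∨ v = vb (t, x) i) := by
      intro t
      by_cases ht : t ∈ goodᶜ
      swap
      · exact ⟨v0, fun h => absurd h ht⟩
      rw [Finset.mem_compl, hgood, Finset.mem_filter] at ht
      have : ∃ x, ¬ Full e p (t, x) := by
        by_contra h; push Not at h; exact ht ⟨Finset.mem_univ _, h⟩
      obtain ⟨x, hx⟩ := this
      unfold Full at hx
      rw [not_and_or] at hx
      rcases hx with hx | hx
      · push Not at hx
        obtain ⟨i, hi⟩ := hx
        exact ⟨va (t, x) i, fun _ => ⟨by rw [Finset.mem_compl, hS, Finset.mem_filter]; tauto, x, i,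
          Or.inl rfl⟩⟩
      · push Not at hx
        obtain ⟨i, hi⟩ := hx
        exact ⟨vb (t, x) i, fun _ => ⟨by rw [Finset.mem_compl, hS, Finset.mem_filter]; tauto, x, i,
          Or.inr rfl⟩⟩
    choose f hf using hex
    apply Finset.card_le_card_of_injOn f
    · intro t ht; exact (hf t ht).1
    · intro t ht t' ht' htt
      obtain ⟨x, i, h⟩ := (hf t ht).2
      obtain ⟨x', i', h'⟩ := (hf t' ht').2
      rw [htt] at h
      rcases h with h | h <;> rcases h' with h' | h' <;> rw [h] at h' <;>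
        simp only [Sum.inl.injEq, Sum.inr.injEq, Prod.mk.injEq, reduceCtorEq] at h'
      · exact h'.1.1
      · exact h'.1.1
  have hsum : 4 * good.card ≤ 4 * ((n 0 + n 1 + n 2) * Fintype.card G') := by
    calc 4 * good.card = ∑ t ∈ good, 4 := by simp [mul_comm]
      _ ≤ ∑ t ∈ good, ∑ x, cB e p.toSubgraph (t, x) := by
        apply Finset.sum_le_sum
        intro t ht
        rw [hgood, Finset.mem_filter] at ht
        exact good_four e hr hk p hp t ht.2 hc
      _ ≤ ∑ t, ∑ x, cB e p.toSubgraph (t, x) := by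
        apply Finset.sum_le_sum_of_subset
        exact Finset.subset_univ _
      _ = ∑ d : T × Fin 3, cB e p.toSubgraph d := by rw [Fintype.sum_prod_type]
      _ ≤ ∑ x : G' × (Σ x : Fin 3, Fin (wd n x)), ∑ v, ind p.toSubgraph (Sum.inr (Sum.inr x)) v :=
        sum_cB e p.toSubgraph
      _ ≤ ∑ x : G' × (Σ x : Fin 3, Fin (wd n x)), 2 :=
        Finset.sum_le_sum (fun x _ => deg_cyc_le e p hp _)
      _ = 4 * ((n 0 + n 1 + n 2) * Fintype.card G') := by
        have h9 := sum_wd (n := n)
        simp only [Finset.sum_const, Finset.card_univ, Fintype.card_prod, Fintype.card_fin,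
          smul_eq_mul, Fintype.card_sigma, Fin.sum_univ_three]
        rw [h9]
        ring
  refine ⟨(goodᶜ).card, ?_, ?_⟩
  · have h1 := Finset.card_add_card_compl S
    omega
  · have h1 := Finset.card_add_card_compl good
    have h2 := card_e e
    have h3 : r * good.card ≤ (n 0 + n 1 + n 2) * Fintype.card T := by
      have h4 : good.card ≤ (n 0 + n 1 + n 2) * Fintype.card G' := by omega
      calc r * good.card ≤ r * ((n 0 + n 1 + n 2) * Fintype.card G') := Nat.mul_le_mul_left _ h4
        _ = (n 0 + n 1 + n 2) * (Fintype.card G' * r) := by ring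
        _ = (n 0 + n 1 + n 2) * Fintype.card T := by rw [h2]
    calc r * Fintype.card T = r * (good.card + goodᶜ.card) := by rw [h1]
      _ = r * goodᶜ.card + r * good.card := by ring
      _ ≤ _ := Nat.add_le_add_left h3 _

/-- every cycle is short -/
theorem cyc_short {v0 : Vt T G' r n} (hk : ∀ x, wd n x ≤ r) (hN : n 0 + n 1 + n 2 < r)
    (hT : Nonempty T) (p : (Gr n e).Walk v0 v0) (hp : p.IsCycle) :
    p.length * (6 * r ^ 2 + 2 * (n 0 + n 1 + n 2)) +
      (r - (n 0 + n 1 + n 2)) * Fintype.card (Vt T G' r n) ≤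
      (6 * r ^ 2 + 2 * (n 0 + n 1 + n 2)) * Fintype.card (Vt T G' r n) := by
  classical
  have hTc : 1 ≤ Fintype.card T := Fintype.card_pos
  have hV := card_Vt (T := T) (G' := G') (r := r) (n := n)
  have hE := card_e e
  obtain ⟨N, hNe⟩ : ∃ N, N = n 0 + n 1 + n 2 := ⟨_, rfl⟩
  have hmiss : (∀ d, ¬ ∀ v ∈ p.support, v ∈ blk d) →
    ∃ bad : ℕ, p.length + bad ≤ Fintype.card (Vt T G' r n) ∧
      r * Fintype.card T ≤ r * bad + (n 0 + n 1 + n 2) * Fintype.card T :=
    fun hc => miss e (show 0 < r by omega) hk p hp hc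
  rw [← hNe] at hN hV hmiss ⊢
  obtain ⟨s, hr⟩ : ∃ s, r = N + s + 1 := ⟨r - N - 1, by omega⟩
  have hsub : r - N = s + 1 := by omega
  rw [hsub]
  set c := Fintype.card (Vt T G' r n) with hc0
  have hrn : r * c = (6 * r ^ 2 + 2 * N) * Fintype.card T := by
    rw [hV]
    calc r * (6 * Fintype.card T * r + 2 * N * Fintype.card G')
        = 6 * r ^ 2 * Fintype.card T + 2 * N * (Fintype.card G' * r) := by ring
      _ = 6 * r ^ 2 * Fintype.card T + 2 * N * Fintype.card T := by rw [hE]
      _ = _ := by ring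
  by_cases hc : ∀ d, ¬ ∀ v ∈ p.support, v ∈ blk d
  · obtain ⟨bad, h1, h2⟩ := hmiss hc
    have h3 : (s + 1) * Fintype.card T ≤ r * bad := by
      have : r * Fintype.card T = (s + 1) * Fintype.card T + N * Fintype.card T := by
        have h9 : r = (s + 1) + N := by omega
        calc r * Fintype.card T = ((s + 1) + N) * Fintype.card T := by rw [← h9]
          _ = _ := by ring
      omega
    have h4 : r * ((s + 1) * c) ≤ r * ((6 * r ^ 2 + 2 * N) * bad) := by
      calc r * ((s + 1) * c) = (s + 1) * (r * c) := by ring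
        _ = (6 * r ^ 2 + 2 * N) * ((s + 1) * Fintype.card T) := by rw [hrn]; ring
        _ ≤ (6 * r ^ 2 + 2 * N) * (r * bad) := Nat.mul_le_mul_left _ h3
        _ = _ := by ring
    have h5 : (s + 1) * c ≤ (6 * r ^ 2 + 2 * N) * bad :=
      Nat.le_of_mul_le_mul_left h4 (by omega)
    calc p.length * (6 * r ^ 2 + 2 * N) + (s + 1) * c
        ≤ p.length * (6 * r ^ 2 + 2 * N) + (6 * r ^ 2 + 2 * N) * bad := by omega
      _ = (6 * r ^ 2 + 2 * N) * (p.length + bad) := by ring
      _ ≤ _ := Nat.mul_le_mul_left _ h1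
  · push Not at hc
    obtain ⟨d, hd⟩ := hc
    have hlen : p.length ≤ 2 * r := by
      have h1 : p.support.tail.toFinset.card = p.length := by
        rw [List.toFinset_card_of_nodup hp.support_nodup, List.length_tail,
          SimpleGraph.Walk.length_support]
        simp
      rw [← h1]
      have h2 : p.support.tail.toFinset ⊆ (Finset.univ.image (fun i : Fin r =>
          (va d i : Vt T G' r n))) ∪ (Finset.univ.image (fun i : Fin r =>
          (vb d i : Vt T G' r n))) := by
        intro v hv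
        rw [List.mem_toFinset] at hv
        have := hd v (List.mem_of_mem_tail hv)
        simp only [Finset.mem_union, Finset.mem_image, Finset.mem_univ, true_and]
        rcases this with ⟨i, rfl⟩ | ⟨i, rfl⟩
        · exact Or.inl ⟨i, rfl⟩
        · exact Or.inr ⟨i, rfl⟩
      refine (Finset.card_le_card h2).trans ((Finset.card_union_le _ _).trans ?_)
      have h3 : ∀ f : Fin r → Vt T G' r n, (Finset.univ.image f).card ≤ r := fun f =>
        Finset.card_image_le.trans (by simp)
      have := h3 (fun i => va d i)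
      have := h3 (fun i => vb d i)
      omega
    have hn6 : 6 * r ≤ c := by
      rw [hV]
      have : 6 * r ≤ 6 * Fintype.card T * r := by
        have : r ≤ Fintype.card T * r := Nat.le_mul_of_pos_left r hTc
        calc 6 * r ≤ 6 * (Fintype.card T * r) := by omega
          _ = _ := by ring
      omega
    have h6 : 3 * (s + 1) ≤ 6 * r ^ 2 + 2 * N := by
      have : s + 1 ≤ r := by omega
      nlinarith
    have h7 : 3 * (p.length * (6 * r ^ 2 + 2 * N)) ≤ (6 * r ^ 2 + 2 * N) * c := by
      have : 3 * p.length ≤ c := by omega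
      calc 3 * (p.length * (6 * r ^ 2 + 2 * N)) = (6 * r ^ 2 + 2 * N) * (3 * p.length) := by ring
        _ ≤ _ := Nat.mul_le_mul_left _ this
    have h8 : 3 * ((s + 1) * c) ≤ (6 * r ^ 2 + 2 * N) * c := by
      calc 3 * ((s + 1) * c) = (3 * (s + 1)) * c := by ring
        _ ≤ _ := Nat.mul_le_mul_right _ h6
    linarith [Nat.zero_le ((6 * r ^ 2 + 2 * N) * c)]

end

end Run7.h962
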