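import Pool.Agent.Run7.h962.VConn

namespace Run7.h962

open Classical in
/-- crossing darts -/
noncomputable def Xs {V : Type} [Fintype V] (G : SimpleGraph V) (P : V → Prop) : Finset (V × V) :=
  Finset.univ.filter (fun x => G.Adj x.1 x.2 ∧ P x.1 ∧ ¬ P x.2)

lemma mem_Xs {V : Type} [Fintype V] (G : SimpleGraph V) (P : V → Prop) (x : V × V) :
    x ∈ Xs G P ↔ G.Adj x.1 x.2 ∧ P x.1 ∧ ¬ P x.2 := by
  simp [Xs]

lemma arith1 (r s p q N mu : ℕ) (hr : 6 ≤ r) (hsr : 3 * s < 4 * r) (hp : p ≤ r) (hq : q ≤ r)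
    (hN : p * (r - q) + (r - p) * q ≤ N + mu) (hm1 : mu ≤ p + q) (hm2 : mu + p + q ≤ 2 * r)
    (hN4 : N < s) : p + q ≤ 1 ∨ 2 * r ≤ p + q + 1 := by
  by_contra hcon
  push Not at hcon
  obtain ⟨h1, h2⟩ := hcon
  obtain ⟨q', rfl⟩ := Nat.exists_eq_add_of_le hq
  obtain ⟨p', hp'⟩ := Nat.exists_eq_add_of_le hp
  have e1 : q + q' - q = q' := by omega
  have e2 : q + q' - p = p' := by omega
  rw [e1, e2] at hN
  -- now p + p' = q + q' = r
  rcases le_total (p + q) (p' + q') with hs | hs
  · have h3 : p * q' + p' * q ≤ N + (p + q) := by omega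
    zify at *
    have hq' : (q' : ℤ) = p + p' - q := by linarith
    subst_vars
    rw [hq'] at *
    nlinarith [sq_nonneg ((p : ℤ) - q), mul_nonneg (by linarith : (0 : ℤ) ≤ (p : ℤ) + q - 2)
      (by linarith : (0 : ℤ) ≤ (p : ℤ) + p' - (p + q))]
  · have h3 : p * q' + p' * q ≤ N + (p' + q') := by omega
    zify at *
    have hq' : (q : ℤ) = p + p' - q' := by linarith
    rw [hq'] at *
    nlinarith [sq_nonneg ((p' : ℤ) - q'), mul_nonneg (by linarith : (0 : ℤ) ≤ (p' : ℤ) + q' - 2)
      (by linarith : (0 : ℤ) ≤ (p : ℤ) + p' - (p' + q'))]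

lemma arith2 (r p q N mu : ℕ) (hp : p ≤ r) (hq : q ≤ r)
    (hN : p * (r - q) + (r - p) * q ≤ N + mu) (hm1 : mu ≤ p + q) (hm2 : mu + p + q ≤ 2 * r)
    (h : p + q = 1 ∨ 2 * r = p + q + 1) : r ≤ N + 1 := by
  rcases h with h | h
  · have : (p = 1 ∧ q = 0) ∨ (p = 0 ∧ q = 1) := by omega
    rcases this with ⟨rfl, rfl⟩ | ⟨rfl, rfl⟩
    · simp at hN; omega
    · simp at hN; omega
  · have : (p = r ∧ q + 1 = r) ∨ (q = r ∧ p + 1 = r) := by omega
    rcases this with ⟨rfl, rfl⟩ | ⟨rfl, rfl⟩
    · have e1 : q + 1 - q = 1 := by omega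
      rw [e1] at hN; simp at hN; omega
    · have e1 : p + 1 - p = 1 := by omega
      rw [e1] at hN; simp at hN; omega

section
variable {T G' : Type} {r : ℕ} {n : Fin 3 → ℕ} (e : T × Fin 3 ≃ (G' × Fin 3) × Fin r)

/-- class of a dart: block, triple or group -/
def cls : Vt T G' r n → Vt T G' r n → (T × Fin 3) ⊕ (T ⊕ (G' × Fin 3))
  | Sum.inl (d, _), Sum.inl (_, _) => Sum.inr (Sum.inl d.1)
  | Sum.inl (d, _), Sum.inr _ => Sum.inl d
  | Sum.inr (Sum.inl (d, _)), Sum.inl (_, _) => Sum.inl d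
  | Sum.inr (Sum.inl (d, _)), Sum.inr (Sum.inl (_, _)) => Sum.inl d
  | Sum.inr (Sum.inl (_, _)), Sum.inr (Sum.inr (g, y)) => Sum.inr (Sum.inr (g, y.1))
  | Sum.inr (Sum.inr (g, y)), _ => Sum.inr (Sum.inr (g, y.1))

variable [Fintype T] [Fintype G']

open Classical in
/-- number of crossing darts of a class -/
noncomputable def Nc (P : Vt T G' r n → Prop) (c : (T × Fin 3) ⊕ (T ⊕ (G' × Fin 3))) : ℕ :=
  ((Xs (Gr n e) P).filter (fun x => cls x.1 x.2 = c)).card

lemma Nc_le (P : Vt T G' r n → Prop) (c : (T × Fin 3) ⊕ (T ⊕ (G' × Fin 3))) :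
    Nc e P c ≤ (Xs (Gr n e) P).card := by
  classical
  unfold Nc
  exact Finset.card_filter_le _ _

lemma Nc_add (P : Vt T G' r n → Prop) (S : Finset ((T × Fin 3) ⊕ (T ⊕ (G' × Fin 3)))) :
    ∑ c ∈ S, Nc e P c ≤ (Xs (Gr n e) P).card := by
  classical
  unfold Nc
  rw [← Finset.card_biUnion]
  · apply Finset.card_le_card
    intro x hx
    simp only [Finset.mem_biUnion, Finset.mem_filter] at hx
    obtain ⟨_, _, h, _⟩ := hx
    exact h
  · intro c _ c' _ hcc
    rw [Function.onFun, Finset.disjoint_left]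
    intro x h1 h2
    simp only [Finset.mem_filter] at h1 h2
    exact hcc (h1.2.symm.trans h2.2)

open Classical in
noncomputable def pa (P : Vt T G' r n → Prop) (d : T × Fin 3) : ℕ :=
  (Finset.univ.filter (fun i : Fin r => P (va d i))).card

open Classical in
noncomputable def pb (P : Vt T G' r n → Prop) (d : T × Fin 3) : ℕ :=
  (Finset.univ.filter (fun i : Fin r => P (vb d i))).card

lemma pa_le (P : Vt T G' r n → Prop) (d : T × Fin 3) : pa P d ≤ r := by
  unfold pa
  refine (Finset.card_le_univ _).trans ?_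
  simp

lemma pb_le (P : Vt T G' r n → Prop) (d : T × Fin 3) : pb P d ≤ r := by
  unfold pb
  refine (Finset.card_le_univ _).trans ?_
  simp

/-- inner crossing edges of a block -/
lemma inner (P : Vt T G' r n → Prop) (d : T × Fin 3) :
    ∃ mu, pa P d * (r - pb P d) + (r - pa P d) * pb P d ≤ Nc e P (Sum.inl d) + mu ∧
      mu ≤ pa P d + pb P d ∧ mu + pa P d + pb P d ≤ 2 * r := by
  classical
  set A1 := Finset.univ.filter (fun i : Fin r => P (va d i)) with hA1
  set B1 := Finset.univ.filter (fun i : Fin r => P (vb d i)) with hB1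
  have hpa : pa P d = A1.card := by rw [hA1]; unfold pa; congr
  have hpb : pb P d = B1.card := by rw [hB1]; unfold pb; congr
  have hA0 : A1ᶜ.card = r - A1.card := by rw [Finset.card_compl]; simp
  have hB0 : B1ᶜ.card = r - B1.card := by rw [Finset.card_compl]; simp
  have hA1r : A1.card ≤ r := by rw [← hpa]; exact pa_le P d
  have hB1r : B1.card ≤ r := by rw [← hpb]; exact pb_le P d
  set E := A1 ×ˢ B1ᶜ ∪ A1ᶜ ×ˢ B1 with hE
  have hEc : E.card = A1.card * (r - B1.card) + (r - A1.card) * B1.card := by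
    rw [hE, Finset.card_union_of_disjoint, Finset.card_product, Finset.card_product, hA0, hB0]
    rw [Finset.disjoint_left]
    intro x h1 h2
    simp only [Finset.mem_product, Finset.mem_compl] at h1 h2
    exact h2.1 h1.1
  set Dg := E.filter (fun x => x.1 = x.2) with hDg
  have hD1 : Dg.card ≤ (A1 ∪ B1).card := by
    apply Finset.card_le_card_of_injOn (fun x => x.1)
    · intro x hx
      simp only [hDg, hE, Finset.coe_filter, Finset.mem_union, Finset.mem_product,
        Finset.mem_compl, Set.mem_ofPred_eq] at hx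
      obtain ⟨h1, h2⟩ := hx
      simp only [Finset.coe_union, Set.mem_union, Finset.mem_coe]
      rcases h1 with h1 | h1
      · exact Or.inl h1.1
      · rw [h2]; exact Or.inr h1.2
    · intro x hx y hy hxy
      simp only [hDg, Finset.coe_filter, Set.mem_ofPred_eq] at hx hy
      exact Prod.ext hxy (by rw [← hx.2, ← hy.2]; exact hxy)
  have hD2 : Dg.card ≤ (A1ᶜ ∪ B1ᶜ).card := by
    apply Finset.card_le_card_of_injOn (fun x => x.1)
    · intro x hx
      simp only [hDg, hE, Finset.coe_filter, Finset.mem_union, Finset.mem_product,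
        Finset.mem_compl, Set.mem_ofPred_eq] at hx
      obtain ⟨h1, h2⟩ := hx
      simp only [Finset.coe_union, Set.mem_union, Finset.mem_coe, Finset.mem_compl]
      rcases h1 with h1 | h1
      · right; rw [h2]; exact h1.2
      · exact Or.inl h1.1
    · intro x hx y hy hxy
      simp only [hDg, Finset.coe_filter, Set.mem_ofPred_eq] at hx hy
      exact Prod.ext hxy (by rw [← hx.2, ← hy.2]; exact hxy)
  refine ⟨Dg.card, ?_, ?_, ?_⟩
  · rw [hpa, hpb, ← hEc]
    have h1 : E.card = (E.filter (fun x => ¬ x.1 = x.2)).card + Dg.card := by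
      rw [hDg, add_comm]
      exact (Finset.card_filter_add_card_filter_not _).symm
    rw [h1]
    apply Nat.add_le_add_right
    unfold Nc
    apply Finset.card_le_card_of_injOn (fun x => if P (va d x.1) then
      ((va d x.1, vb d x.2) : Vt T G' r n × Vt T G' r n) else (vb d x.2, va d x.1))
    · intro x hx
      simp only [hE, hA1, hB1, Finset.coe_filter, Finset.mem_union, Finset.mem_product,
        Finset.mem_compl, Finset.mem_filter, Finset.mem_univ, true_and, Set.mem_ofPred_eq] at hx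
      obtain ⟨h1, h2⟩ := hx
      simp only [Finset.coe_filter, mem_Xs, Set.mem_ofPred_eq]
      rcases h1 with h1 | h1
      · rw [if_pos h1.1]
        exact ⟨⟨(adj_ab e _ _ _ _).2 ⟨rfl, inR_of_ne h2⟩, h1.1, h1.2⟩, rfl⟩
      · rw [if_neg h1.1]
        exact ⟨⟨(adj_ba e _ _ _ _).2 ⟨rfl, inR_of_ne h2⟩, h1.2, h1.1⟩, rfl⟩
    · intro x hx y hy hxy
      dsimp only at hxy
      split_ifs at hxy with h1 h2 h2
      · simp only [Prod.mk.injEq, Sum.inl.injEq, Sum.inr.injEq, true_and] at hxy
        exact Prod.ext hxy.1 hxy.2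
      · simp at hxy
      · simp at hxy
      · simp only [Prod.mk.injEq, Sum.inl.injEq, Sum.inr.injEq, true_and] at hxy
        exact Prod.ext hxy.2 hxy.1
  · rw [hpa, hpb]
    exact hD1.trans (Finset.card_union_le _ _)
  · rw [hpa, hpb]
    have := hD2.trans (Finset.card_union_le _ _)
    rw [hA0, hB0] at this
    omega

/-- majority colour of a block -/
def Mj (P : Vt T G' r n → Prop) (d : T × Fin 3) : Prop := 2 * r ≤ pa P d + pb P d + 1

/-- exceptional vertices -/
def Exc (P : Vt T G' r n → Prop) : Vt T G' r n → Prop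
  | Sum.inl (d, i) => ¬ (P (va d i) ↔ Mj P d)
  | Sum.inr (Sum.inl (d, i)) => ¬ (P (vb d i) ↔ Mj P d)
  | Sum.inr (Sum.inr _) => False

open Classical in
/-- number of exceptional vertices of a block -/
lemma exc_block (P : Vt T G' r n → Prop) (d : T × Fin 3)
    (h : pa P d + pb P d ≤ 1 ∨ 2 * r ≤ pa P d + pb P d + 1) (hr : 2 ≤ r) :
    (Finset.univ.filter (fun i : Fin r => Exc P (va d i))).card +
      (Finset.univ.filter (fun i : Fin r => Exc P (vb d i))).card =
      if Mj P d then 2 * r - (pa P d + pb P d) else pa P d + pb P d := by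
  by_cases hM : Mj P d
  · rw [if_pos hM]
    have h1 : (Finset.univ.filter (fun i : Fin r => Exc P (va d i))) =
        (Finset.univ.filter (fun i : Fin r => P (va d i)))ᶜ := by
      ext i; simp [Exc, hM]
    have h2 : (Finset.univ.filter (fun i : Fin r => Exc P (vb d i))) =
        (Finset.univ.filter (fun i : Fin r => P (vb d i)))ᶜ := by
      ext i; simp [Exc, hM]
    rw [h1, h2, Finset.card_compl, Finset.card_compl, Fintype.card_fin]
    have h3 := pa_le P d
    have h4 := pb_le P d
    unfold pa pb at *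
    omega
  · rw [if_neg hM]
    have h1 : (Finset.univ.filter (fun i : Fin r => Exc P (va d i))) =
        (Finset.univ.filter (fun i : Fin r => P (va d i))) := by
      ext i; simp [Exc, hM]
    have h2 : (Finset.univ.filter (fun i : Fin r => Exc P (vb d i))) =
        (Finset.univ.filter (fun i : Fin r => P (vb d i))) := by
      ext i; simp [Exc, hM]
    rw [h1, h2]
    rfl

end

end Run7.h962
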