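import Pool.Agent.Run7.h962.EConn

namespace Run7.h962

lemma two_sets {α β : Type} [DecidableEq α] [DecidableEq β] {n : ℕ} (S1 : Finset α)
    (S2 : Finset β) (F : Fin n → α) (H : Fin n → β) (hF : Function.Injective F)
    (hH : Function.Injective H) (hc : ∀ I, F I ∈ S1 ∨ H I ∈ S2) : n ≤ S1.card + S2.card := by
  classical
  have h1 : (Finset.univ.filter (fun I => F I ∈ S1)).card ≤ S1.card := by
    apply Finset.card_le_card_of_injOn F
    · intro I hI; simpa using hI
    · exact hF.injOn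
  have h2 : (Finset.univ.filter (fun I => ¬ F I ∈ S1)).card ≤ S2.card := by
    apply Finset.card_le_card_of_injOn H
    · intro I hI
      simp only [Finset.coe_filter, Finset.mem_univ, true_and, Set.mem_setOf_eq] at hI
      exact (hc I).resolve_left hI
    · exact hH.injOn
  have h3 := Finset.card_filter_add_card_filter_not (s := (Finset.univ : Finset (Fin n)))
    (fun I => F I ∈ S1)
  simp only [Finset.card_univ, Fintype.card_fin] at h3
  omega

section
variable {T G' : Type} [Fintype T] [Fintype G'] {r : ℕ} {n : Fin 3 → ℕ}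
  (e : T × Fin 3 ≃ (G' × Fin 3) × Fin r)

open Classical in
noncomputable def Ex (P : Vt T G' r n → Prop) : Finset (Vt T G' r n) :=
  Finset.univ.filter (Exc P)

lemma mem_Ex (P : Vt T G' r n → Prop) (v : Vt T G' r n) : v ∈ Ex P ↔ Exc P v := by
  simp [Ex]

lemma split_edges (hk : ∀ x, wd n x ≤ r) (P : Vt T G' r n → Prop)
    (c : T ⊕ (G' × Fin 3)) (hc : Split e (Mj P) c) :
    ∃ z, wd n z ≤ Nc e P (Sum.inr c) + (Ex P).card := by
  classical
  rcases c with t | g
  · obtain ⟨x, y, hx, hy⟩ := hc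
    obtain ⟨z, hz⟩ := odd_one (fun x => Mj P (t, x)) x y hx hy
    have lt1 : ∀ I : Fin (wd n z), (I : ℕ) < r := fun I => lt_of_lt_of_le I.2 (hk z)
    refine ⟨z, ?_⟩
    unfold Nc
    refine two_sets _ _
      (fun I => if P (va (t, z) ⟨I, lt1 I⟩) then
        ((va (t, z) ⟨I, lt1 I⟩, Sum.inl (prt hk (t, z) ⟨I, lt1 I⟩)) :
          Vt T G' r n × Vt T G' r n)
        else (Sum.inl (prt hk (t, z) ⟨I, lt1 I⟩), va (t, z) ⟨I, lt1 I⟩))
      (fun I => if Exc P (va (t, z) ⟨I, lt1 I⟩) then
        (va (t, z) ⟨I, lt1 I⟩ : Vt T G' r n) else Sum.inl (prt hk (t, z) ⟨I, lt1 I⟩))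
      ?_ ?_ ?_
    · intro I J hIJ
      dsimp only at hIJ
      split_ifs at hIJ with h1 h2 h2
      · simp only [Prod.mk.injEq, Sum.inl.injEq, Fin.mk.injEq, true_and] at hIJ
        exact Fin.ext hIJ.1
      · simp only [Prod.mk.injEq, Sum.inl.injEq] at hIJ
        exact absurd hIJ.1.symm (prt_ne' hk _ _ _)
      · simp only [Prod.mk.injEq, Sum.inl.injEq] at hIJ
        exact absurd hIJ.1 (prt_ne' hk _ _ _)
      · simp only [Prod.mk.injEq, Sum.inl.injEq, Fin.mk.injEq, true_and] at hIJ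
        exact Fin.ext hIJ.2
    · intro I J hIJ
      dsimp only at hIJ
      split_ifs at hIJ with h1 h2 h2
      · simp only [Prod.mk.injEq, Sum.inl.injEq, Fin.mk.injEq, true_and] at hIJ
        exact Fin.ext hIJ
      · simp only [Sum.inl.injEq] at hIJ
        exact absurd hIJ.symm (prt_ne' hk _ _ _)
      · simp only [Sum.inl.injEq] at hIJ
        exact absurd hIJ (prt_ne' hk _ _ _)
      · simp only [Sum.inl.injEq] at hIJ
        exact prt_inj hk (t, z) I J hIJ
    · intro I
      by_cases hE1 : Exc P (va (t, z) ⟨I, lt1 I⟩)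
      · right; rw [if_pos hE1, mem_Ex]; exact hE1
      · by_cases hE2 : Exc P (Sum.inl (prt hk (t, z) ⟨I, lt1 I⟩))
        · right; rw [if_neg hE1, mem_Ex]; exact hE2
        · left
          have h1 : P (va (t, z) ⟨I, lt1 I⟩) ↔ Mj P (t, z) := by
            by_contra h; exact hE1 h
          have h2 : P (Sum.inl (prt hk (t, z) ⟨I, lt1 I⟩)) ↔
              Mj P (prt hk (t, z) ⟨I, lt1 I⟩).1 := by
            by_contra h; exact hE2 h
          have h6 : (prt hk (t, z) ⟨I, lt1 I⟩).1
              = (t, (prt hk (t, z) ⟨I, lt1 I⟩).1.2) :=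
            Prod.ext (prt_fst hk _ _) rfl
          have h5 : ¬ (Mj P (prt hk (t, z) ⟨I, lt1 I⟩).1 ↔ Mj P (t, z)) := by
            rw [h6]; exact hz _ (prt_ne hk (t, z) ⟨I, lt1 I⟩)
          have hadj := prt_adj e hk (t, z) ⟨I, lt1 I⟩ I.2
          rw [Finset.mem_filter, mem_Xs]
          split_ifs with h7
          · refine ⟨⟨hadj, h7, ?_⟩, rfl⟩
            intro h8
            exact h5 ⟨fun _ => h1.1 h7, fun _ => h2.1 h8⟩
          · refine ⟨⟨hadj.symm, ?_, h7⟩, ?_⟩
            · by_contra h8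
              exact h5 ⟨fun h => absurd (h2.2 h) h8, fun h => absurd (h1.2 h) h7⟩
            · change Sum.inr (Sum.inl (prt hk (t, z) ⟨I, lt1 I⟩).1.1) = _
              rw [prt_fst]
  · obtain ⟨g, z⟩ := g
    obtain ⟨d, d', hd, hd', hM, hM'⟩ := hc
    have lt1 : ∀ I : Fin (wd n z), (I : ℕ) < r := fun I => lt_of_lt_of_le I.2 (hk z)
    refine ⟨z, ?_⟩
    unfold Nc
    refine two_sets _ _
      (fun I => if P (vq g z I) then
        ((vq g z I, vb d' ⟨I, lt1 I⟩) : Vt T G' r n × Vt T G' r n)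
        else (vb d ⟨I, lt1 I⟩, vq g z I))
      (fun I => if Exc P (vb d ⟨I, lt1 I⟩) then
        (vb d ⟨I, lt1 I⟩ : Vt T G' r n) else vb d' ⟨I, lt1 I⟩)
      ?_ ?_ ?_
    · intro I J hIJ
      dsimp only at hIJ
      split_ifs at hIJ with h1 h2 h2
      · simp only [Prod.mk.injEq, Sum.inr.injEq, true_and, Sigma.mk.injEq, heq_eq_eq] at hIJ
        exact hIJ.1
      · simp at hIJ
      · simp at hIJ
      · simp only [Prod.mk.injEq, Sum.inr.injEq, true_and, Sigma.mk.injEq, heq_eq_eq] at hIJ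
        exact hIJ.2
    · intro I J hIJ
      dsimp only at hIJ
      split_ifs at hIJ with h1 h2 h2 <;>
        simp only [Sum.inr.injEq, Sum.inl.injEq, Prod.mk.injEq, Fin.mk.injEq] at hIJ
      · exact Fin.ext hIJ.2
      · exact Fin.ext hIJ.2
      · exact Fin.ext hIJ.2
      · exact Fin.ext hIJ.2
    · intro I
      by_cases hE1 : Exc P (vb d ⟨I, lt1 I⟩)
      · right; rw [if_pos hE1, mem_Ex]; exact hE1
      · by_cases hE2 : Exc P (vb d' ⟨I, lt1 I⟩)
        · right; rw [if_neg hE1, mem_Ex]; exact hE2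
        · left
          have h1 : P (vb d ⟨I, lt1 I⟩) ↔ Mj P d := by
            by_contra h; exact hE1 h
          have h2 : P (vb d' ⟨I, lt1 I⟩) ↔ Mj P d' := by
            by_contra h; exact hE2 h
          rw [Finset.mem_filter, mem_Xs]
          split_ifs with h7
          · exact ⟨⟨(adj_qb e d' _ _ _ _).2 ⟨hd', rfl⟩, h7, fun h => hM' (h2.1 h)⟩, rfl⟩
          · exact ⟨⟨(adj_bq e d _ _ _ _).2 ⟨hd, rfl⟩, h1.2 hM, h7⟩, rfl⟩

/-- at most one vertex of the blocks is on one side -/
theorem econst (hr : 6 ≤ r) (s : ℕ) (hk : ∀ x, wd n x ≤ r) (hs : ∀ x, s ≤ 2 * wd n x)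
    (hsr : 3 * s < 4 * r) (hconn : TwoConn e) (P : Vt T G' r n → Prop)
    (hX : (Xs (Gr n e) P).card < s) :
    (∀ v v', P v → P v' → (∀ g x i, v ≠ vq g x i) → (∀ g x i, v' ≠ vq g x i) → v = v') ∨
    (∀ v v', ¬ P v → ¬ P v' → (∀ g x i, v ≠ vq g x i) → (∀ g x i, v' ≠ vq g x i) →
      v = v') := by
  classical
  have hbl : ∀ d, pa P d + pb P d ≤ 1 ∨ 2 * r ≤ pa P d + pb P d + 1 := by
    intro d
    obtain ⟨mu, h1, h2, h3⟩ := inner e P d
    exact arith1 r s _ _ _ mu hr hsr (pa_le P d) (pb_le P d) h1 h2 (by omega)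
      (lt_of_le_of_lt (Nc_le e P _) hX)
  have hcnt : ∀ d, (Finset.univ.filter (fun i : Fin r => Exc P (va d i))).card +
      (Finset.univ.filter (fun i : Fin r => Exc P (vb d i))).card ≤ 1 := by
    intro d
    rw [exc_block P d (hbl d) (by omega)]
    split_ifs with h
    · unfold Mj at h; omega
    · rcases hbl d with h1 | h1
      · exact h1
      · exact absurd h1 h
  have hN : ∀ d, 1 ≤ (Finset.univ.filter (fun i : Fin r => Exc P (va d i))).card +
      (Finset.univ.filter (fun i : Fin r => Exc P (vb d i))).card →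
      r ≤ Nc e P (Sum.inl d) + 1 := by
    intro d hd
    obtain ⟨mu, h1, h2, h3⟩ := inner e P d
    refine arith2 r _ _ _ mu (pa_le P d) (pb_le P d) h1 h2 (by omega) ?_
    rw [exc_block P d (hbl d) (by omega)] at hd
    have h4 := pa_le P d
    have h5 := pb_le P d
    have h6 := hbl d
    split_ifs at hd with h
    · unfold Mj at h
      omega
    · unfold Mj at h
      omega
  -- block of an exceptional vertex
  have hex : ∀ v, Exc P v → ∃ d, r ≤ Nc e P (Sum.inl d) + 1 ∧
      ((∃ i, v = va d i) ∨ (∃ i, v = vb d i)) := by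
    rintro (⟨d, i⟩ | ⟨d, i⟩ | ⟨g, x, i⟩) hv
    · refine ⟨d, hN d ?_, Or.inl ⟨i, rfl⟩⟩
      have : 0 < (Finset.univ.filter (fun i : Fin r => Exc P (va d i))).card :=
        Finset.card_pos.2 ⟨i, by simpa using hv⟩
      omega
    · refine ⟨d, hN d ?_, Or.inr ⟨i, rfl⟩⟩
      have : 0 < (Finset.univ.filter (fun i : Fin r => Exc P (vb d i))).card :=
        Finset.card_pos.2 ⟨i, by simpa using hv⟩
      omega
    · exact hv.elim
  have huniq : ∀ v v', Exc P v → Exc P v' → v = v' := by
    intro v v' hv hv'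
    obtain ⟨d, hd, hvd⟩ := hex v hv
    obtain ⟨d', hd', hvd'⟩ := hex v' hv'
    have hdd : d = d' := by
      by_contra hne
      have := Nc_add e P {Sum.inl d, Sum.inl d'}
      rw [Finset.sum_pair (by simpa using hne)] at this
      omega
    subst hdd
    have hc := hcnt d
    rcases hvd with ⟨i, rfl⟩ | ⟨i, rfl⟩ <;> rcases hvd' with ⟨j, rfl⟩ | ⟨j, rfl⟩
    · have := Finset.card_le_one.1 (show (Finset.univ.filter (fun i : Fin r =>
        Exc P (va d i))).card ≤ 1 by omega) i (by simpa using hv) j (by simpa using hv')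
      rw [this]
    · have h1 : 0 < (Finset.univ.filter (fun i : Fin r => Exc P (va d i))).card :=
        Finset.card_pos.2 ⟨i, by simpa using hv⟩
      have h2 : 0 < (Finset.univ.filter (fun i : Fin r => Exc P (vb d i))).card :=
        Finset.card_pos.2 ⟨j, by simpa using hv'⟩
      omega
    · have h1 : 0 < (Finset.univ.filter (fun i : Fin r => Exc P (va d i))).card :=
        Finset.card_pos.2 ⟨j, by simpa using hv'⟩
      have h2 : 0 < (Finset.univ.filter (fun i : Fin r => Exc P (vb d i))).card :=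
        Finset.card_pos.2 ⟨i, by simpa using hv⟩
      omega
    · have := Finset.card_le_one.1 (show (Finset.univ.filter (fun i : Fin r =>
        Exc P (vb d i))).card ≤ 1 by omega) i (by simpa using hv) j (by simpa using hv')
      rw [this]
  have hExc : (Ex P).card ≤ 1 := by
    rw [Finset.card_le_one]
    intro v hv v' hv'
    exact huniq v v' ((mem_Ex P v).1 hv) ((mem_Ex P v').1 hv')
  have hconst : (∀ d, Mj P d) ∨ (∀ d, ¬ Mj P d) := by
    by_contra hcon
    push Not at hcon
    obtain ⟨c, c', hcc, h1, h2⟩ := hconn (Mj P) hcon.2 hcon.1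
    obtain ⟨z1, c1⟩ := split_edges e hk P c h1
    obtain ⟨z2, c2⟩ := split_edges e hk P c' h2
    have s1 := hs z1
    have s2 := hs z2
    rcases (Ex P).eq_empty_or_nonempty with h0 | ⟨v0, hv0⟩
    · rw [h0, Finset.card_empty] at c1 c2
      have := Nc_add e P {Sum.inr c, Sum.inr c'}
      rw [Finset.sum_pair (by simpa using hcc)] at this
      omega
    · obtain ⟨d0, hd0, _⟩ := hex v0 ((mem_Ex P v0).1 hv0)
      have := Nc_add e P {Sum.inl d0, Sum.inr c, Sum.inr c'}
      rw [Finset.sum_insert (by simp), Finset.sum_pair (by simpa using hcc)] at this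
      omega
  rcases hconst with h | h
  · right
    have : ∀ v, ¬ P v → (∀ g x i, v ≠ vq g x i) → Exc P v := by
      rintro (⟨d, i⟩ | ⟨d, i⟩ | ⟨g, x, i⟩) hv hq
      · intro h'; exact hv (h'.2 (h d))
      · intro h'; exact hv (h'.2 (h d))
      · exact absurd rfl (hq g x i)
    intro v v' hv hv' hq hq'
    exact huniq v v' (this v hv hq) (this v' hv' hq')
  · left
    have : ∀ v, P v → (∀ g x i, v ≠ vq g x i) → Exc P v := by
      rintro (⟨d, i⟩ | ⟨d, i⟩ | ⟨g, x, i⟩) hv hq
      · intro h'; exact h d (h'.1 hv)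
      · intro h'; exact h d (h'.1 hv)
      · exact absurd rfl (hq g x i)
    intro v v' hv hv' hq hq'
    exact huniq v v' (this v hv hq) (this v' hv' hq')

end

end Run7.h962
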