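import Mathlib

/-!
# The graphs of MP_6c24cd_co (upper half), helper962

Triples `T`, groups `G' × Fin 3`, an equivalence `e : T × Fin 3 ≃ (G' × Fin 3) × Fin r`
which respects the class in `Fin 3`, and `n : Fin 3 → ℕ`; `wd n x = n x + n (x + 2)`.
For every `d : T × Fin 3` a block: `K_{r,r}` (sides `a d i`, `b d j`) minus the matching
`a d i -- b d i`, `i < wd n d.2`.  The vertices `a (t,x) i`, `i < wd n x`, are joined in the
triple `t`: `a (t,x) i -- a (t,x+1) (i + n (x+1))` for `i < n x`.  For every group `(g,x)` there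
are `wd n x` further vertices `q g x i`, joined to the `r` vertices `b d i` with `(e d).1 = (g,x)`.
-/

namespace Run7.h962

/-- number of outgoing edges of a side of a block of class `x` -/
def wd (n : Fin 3 → ℕ) (x : Fin 3) : ℕ := n x + n (x + 2)

abbrev Vt (T G' : Type) (r : ℕ) (n : Fin 3 → ℕ) : Type :=
  ((T × Fin 3) × Fin r) ⊕ (((T × Fin 3) × Fin r) ⊕ (G' × (Σ x : Fin 3, Fin (wd n x))))

section
variable {T G' : Type} {r : ℕ} {n : Fin 3 → ℕ}

@[match_pattern] abbrev va (d : T × Fin 3) (i : Fin r) : Vt T G' r n := Sum.inl (d, i)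
@[match_pattern] abbrev vb (d : T × Fin 3) (i : Fin r) : Vt T G' r n := Sum.inr (Sum.inl (d, i))
@[match_pattern] abbrev vq (g : G') (x : Fin 3) (i : Fin (wd n x)) : Vt T G' r n :=
  Sum.inr (Sum.inr (g, ⟨x, i⟩))

/-- edges inside the triples -/
def hubR (n : Fin 3 → ℕ) (d d' : T × Fin 3) (i i' : Fin r) : Prop :=
  d.1 = d'.1 ∧ ((d'.2 = d.2 + 1 ∧ (i : ℕ) < n d.2 ∧ (i' : ℕ) = i + n d'.2) ∨
    (d.2 = d'.2 + 1 ∧ (i' : ℕ) < n d'.2 ∧ (i : ℕ) = i' + n d.2))

/-- edges inside a block -/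
def inR (n : Fin 3 → ℕ) (x : Fin 3) (i j : Fin r) : Prop := ¬ (i = j ∧ (i : ℕ) < wd n x)

/-- adjacency -/
def adj (n : Fin 3 → ℕ) (e : T × Fin 3 ≃ (G' × Fin 3) × Fin r) :
    Vt T G' r n → Vt T G' r n → Prop
  | Sum.inl (d, i), Sum.inl (d', i') => hubR n d d' i i'
  | Sum.inl (d, i), Sum.inr (Sum.inl (d', j)) => d = d' ∧ inR n d.2 i j
  | Sum.inr (Sum.inl (d, j)), Sum.inl (d', i) => d' = d ∧ inR n d'.2 i j
  | Sum.inr (Sum.inl (d, j)), Sum.inr (Sum.inr (g, y)) => (e d).1 = (g, y.1) ∧ (j : ℕ) = y.2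
  | Sum.inr (Sum.inr (g, y)), Sum.inr (Sum.inl (d, j)) => (e d).1 = (g, y.1) ∧ (j : ℕ) = y.2
  | _, _ => False

lemma hubR_symm {d d' : T × Fin 3} {i i' : Fin r} (h : hubR n d d' i i') :
    hubR n d' d i' i := by
  obtain ⟨h1, h2⟩ := h
  exact ⟨h1.symm, h2.symm⟩

lemma hubR_ne {d : T × Fin 3} {i i' : Fin r} : ¬ hubR n d d i i' := by
  rintro ⟨_, h | h⟩
  · have := h.1
    revert this
    generalize d.2 = x
    revert x
    decide
  · have := h.1
    revert this
    generalize d.2 = x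
    revert x
    decide

/-- the graph -/
def Gr (n : Fin 3 → ℕ) (e : T × Fin 3 ≃ (G' × Fin 3) × Fin r) :
    SimpleGraph (Vt T G' r n) where
  Adj := adj n e
  symm := ⟨by
    rintro (⟨d, i⟩ | ⟨d, i⟩ | ⟨g, i⟩) (⟨d', i'⟩ | ⟨d', i'⟩ | ⟨g', i'⟩) h <;>
      first
        | exact hubR_symm h
        | exact h⟩
  loopless := ⟨by
    rintro (⟨d, i⟩ | ⟨d, i⟩ | ⟨g, i⟩) h
    · exact hubR_ne h
    · exact h.elim
    · exact h.elim⟩

variable (e : T × Fin 3 ≃ (G' × Fin 3) × Fin r)

@[simp] lemma adj_aa (d d' : T × Fin 3) (i i' : Fin r) :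
    (Gr n e).Adj (va d i) (va d' i') ↔ hubR n d d' i i' := Iff.rfl
@[simp] lemma adj_ab (d d' : T × Fin 3) (i j : Fin r) :
    (Gr n e).Adj (va d i) (vb d' j) ↔ d = d' ∧ inR n d.2 i j := Iff.rfl
@[simp] lemma adj_ba (d d' : T × Fin 3) (i j : Fin r) :
    (Gr n e).Adj (vb d j) (va d' i) ↔ d' = d ∧ inR n d'.2 i j := Iff.rfl
@[simp] lemma adj_bq (d : T × Fin 3) (j : Fin r) (g : G') (x : Fin 3) (i : Fin (wd n x)) :
    (Gr n e).Adj (vb d j) (vq g x i) ↔ (e d).1 = (g, x) ∧ (j : ℕ) = i := Iff.rfl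
@[simp] lemma adj_qb (d : T × Fin 3) (j : Fin r) (g : G') (x : Fin 3) (i : Fin (wd n x)) :
    (Gr n e).Adj (vq g x i) (vb d j) ↔ (e d).1 = (g, x) ∧ (j : ℕ) = i := Iff.rfl
@[simp] lemma adj_aq (d : T × Fin 3) (j : Fin r) (g : G') (x : Fin 3) (i : Fin (wd n x)) :
    (Gr n e).Adj (va d j) (vq g x i) ↔ False := Iff.rfl
@[simp] lemma adj_qa (d : T × Fin 3) (j : Fin r) (g : G') (x : Fin 3) (i : Fin (wd n x)) :
    (Gr n e).Adj (vq g x i) (va d j) ↔ False := Iff.rfl
@[simp] lemma adj_bb (d d' : T × Fin 3) (j j' : Fin r) :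
    (Gr n e).Adj (vb d j) (vb d' j') ↔ False := Iff.rfl
@[simp] lemma adj_qq (g g' : G') (x x' : Fin 3) (i : Fin (wd n x)) (i' : Fin (wd n x')) :
    (Gr n e).Adj (vq g x i) (vq g' x' i') ↔ False := Iff.rfl

lemma f3a : ∀ x : Fin 3, x + 1 + 2 = x := by decide
lemma f3b : ∀ x : Fin 3, x - 1 + 1 = x := by decide
lemma f3c : ∀ x : Fin 3, x + 2 = x - 1 := by decide
lemma f3d : ∀ x : Fin 3, x + 1 ≠ x := by decide
lemma f3e : ∀ x : Fin 3, x - 1 ≠ x := by decide
lemma f3f : ∀ x y : Fin 3, x = y + 1 ↔ y = x - 1 := by decide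
lemma f3g : ∀ x : Fin 3, x + 1 - 1 = x := by decide

lemma wd_succ (x : Fin 3) : wd n (x + 1) = n (x + 1) + n x := by
  unfold wd; rw [f3a]

lemma wd_eq (x : Fin 3) : wd n x = n x + n (x - 1) := by
  unfold wd; rw [f3c]

/-- partner of `a d i` (`i < wd n d.2`) inside its triple -/
def prt (hk : ∀ x, wd n x ≤ r) (d : T × Fin 3) (i : Fin r) : (T × Fin 3) × Fin r :=
  if h : (i : ℕ) < n d.2 then ((d.1, d.2 + 1), ⟨i + n (d.2 + 1), by
    have := hk (d.2 + 1); rw [wd_succ] at this; omega⟩)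
  else ((d.1, d.2 - 1), ⟨i - n d.2, by omega⟩)

lemma adj_prt (hk : ∀ x, wd n x ≤ r) (d : T × Fin 3) (i : Fin r) (hi : (i : ℕ) < wd n d.2)
    (d' : T × Fin 3) (i' : Fin r) : hubR n d d' i i' ↔ (d', i') = prt hk d i := by
  obtain ⟨t, x⟩ := d
  obtain ⟨t', x'⟩ := d'
  rw [wd_eq] at hi
  unfold hubR prt
  dsimp only at hi ⊢
  split_ifs with h
  · simp only [Prod.mk.injEq, Fin.ext_iff (a := i')]
    constructor
    · rintro ⟨h1, h2 | h2⟩
      · exact ⟨⟨h1.symm, h2.1⟩, by rw [← h2.1]; exact h2.2.2⟩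
      · omega
    · rintro ⟨⟨h1, h2⟩, h3⟩
      exact ⟨h1.symm, Or.inl ⟨h2, h, by rw [h2]; exact h3⟩⟩
  · simp only [Prod.mk.injEq, Fin.ext_iff (a := i')]
    constructor
    · rintro ⟨h1, h2 | h2⟩
      · omega
      · exact ⟨⟨h1.symm, (f3f x x').1 h2.1⟩, by omega⟩
    · rintro ⟨⟨h1, h2⟩, h3⟩
      exact ⟨h1.symm, Or.inr ⟨(f3f x x').2 h2, by rw [h2]; omega, by omega⟩⟩

lemma hubR_lt {d d' : T × Fin 3} {i i' : Fin r} (h : hubR n d d' i i') :
    (i : ℕ) < wd n d.2 := by
  obtain ⟨t, x⟩ := d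
  obtain ⟨t', x'⟩ := d'
  obtain ⟨_, h | h⟩ := h
  · unfold wd; omega
  · rw [wd_eq]
    dsimp only at h ⊢
    have := (f3f x x').1 h.1
    rw [← this]
    omega

end

lemma degree_of_param {V : Type} [Fintype V] [DecidableEq V] (G : SimpleGraph V)
    [DecidableRel G.Adj] {r : ℕ} (v : V) (f : Fin r → V) (hf : Function.Injective f)
    (h : ∀ u, G.Adj v u ↔ ∃ j, f j = u) : G.degree v = r := by
  have : G.neighborFinset v = Finset.univ.image f := by
    ext u
    simp [h]
  rw [← SimpleGraph.card_neighborFinset_eq_degree, this, Finset.card_image_of_injective _ hf]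
  simp

section
variable {T G' : Type} [Fintype T] [DecidableEq T] [Fintype G'] [DecidableEq G'] {r : ℕ}
  {n : Fin 3 → ℕ} (e : T × Fin 3 ≃ (G' × Fin 3) × Fin r)

theorem regular (hk : ∀ x, wd n x ≤ r) (he : ∀ d, (e d).1.2 = d.2) [DecidableRel (Gr n e).Adj] :
    (Gr n e).IsRegularOfDegree r := by
  classical
  rintro (⟨d, i⟩ | ⟨d, i⟩ | ⟨g, x, i⟩)
  · refine degree_of_param (Gr n e) _
      (fun j => if j = i ∧ (i : ℕ) < wd n d.2 then Sum.inl (prt hk d i) else vb d j) ?_ ?_
    · intro j j' hjj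
      by_cases h1 : j = i ∧ (i : ℕ) < wd n d.2 <;> by_cases h2 : j' = i ∧ (i : ℕ) < wd n d.2
      · rw [h1.1, h2.1]
      · simp only [if_pos h1, if_neg h2] at hjj
        cases hjj
      · simp only [if_neg h1, if_pos h2] at hjj
        cases hjj
      · simpa [h1, h2] using hjj
    · rintro (⟨d', i'⟩ | ⟨d', i'⟩ | ⟨g', i'⟩)
      · change hubR n d d' i i' ↔ _
        constructor
        · intro h
          refine ⟨i, ?_⟩
          have hi := hubR_lt h
          simp only [true_and, hi, if_true]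
          rw [(adj_prt hk d i hi d' i').1 h]
        · rintro ⟨j, hj⟩
          by_cases h1 : j = i ∧ (i : ℕ) < wd n d.2
          · simp only [h1, and_self, if_true] at hj
            exact (adj_prt hk d i h1.2 d' i').2 (Sum.inl.inj hj).symm
          · simp [h1] at hj
      · change (d = d' ∧ inR n d.2 i i') ↔ _
        constructor
        · rintro ⟨rfl, h⟩
          refine ⟨i', ?_⟩
          unfold inR at h
          rw [if_neg]
          rintro ⟨h1, h2⟩
          exact h ⟨h1.symm, h2⟩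
        · rintro ⟨j, hj⟩
          by_cases h1 : j = i ∧ (i : ℕ) < wd n d.2
          · simp [h1] at hj
          · rw [if_neg h1] at hj
            simp only [Sum.inr.injEq, Sum.inl.injEq, Prod.mk.injEq] at hj
            obtain ⟨rfl, rfl⟩ := hj
            refine ⟨rfl, ?_⟩
            rintro ⟨h2, h3⟩
            exact h1 ⟨h2.symm, h3⟩
      · change False ↔ _
        simp only [false_iff, not_exists]
        intro j
        split_ifs <;> simp
  · refine degree_of_param (Gr n e) _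
      (fun j => if h : j = i ∧ (i : ℕ) < wd n d.2 then vq (e d).1.1 d.2 ⟨i, h.2⟩ else va d j)
      ?_ ?_
    · intro j j' hjj
      by_cases h1 : j = i ∧ (i : ℕ) < wd n d.2 <;> by_cases h2 : j' = i ∧ (i : ℕ) < wd n d.2
      · rw [h1.1, h2.1]
      · simp only [dif_pos h1, dif_neg h2] at hjj
        cases hjj
      · simp only [dif_neg h1, dif_pos h2] at hjj
        cases hjj
      · simpa [h1, h2] using hjj
    · rintro (⟨d', i'⟩ | ⟨d', i'⟩ | ⟨g', x', i'⟩)
      · change (d' = d ∧ inR n d'.2 i' i) ↔ _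
        constructor
        · rintro ⟨rfl, h⟩
          refine ⟨i', ?_⟩
          unfold inR at h
          rw [dif_neg]
          rintro ⟨h1, h2⟩
          exact h ⟨h1, by rw [h1]; exact h2⟩
        · rintro ⟨j, hj⟩
          by_cases h1 : j = i ∧ (i : ℕ) < wd n d.2
          · simp [h1] at hj
          · rw [dif_neg h1] at hj
            simp only [Sum.inl.injEq, Prod.mk.injEq] at hj
            obtain ⟨rfl, rfl⟩ := hj
            refine ⟨rfl, ?_⟩
            rintro ⟨h2, h3⟩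
            exact h1 ⟨h2, by rw [← h2]; exact h3⟩
      · change False ↔ _
        simp only [false_iff, not_exists]
        intro j
        split_ifs <;> simp
      · change ((e d).1 = (g', x') ∧ (i : ℕ) = i') ↔ _
        constructor
        · rintro ⟨h0, h⟩
          refine ⟨i, ?_⟩
          have hx : d.2 = x' := by rw [← he d, h0]
          have hg : (e d).1.1 = g' := by rw [h0]
          obtain ⟨t, x⟩ := d
          dsimp only at hx
          subst hx
          have : (i : ℕ) < wd n x := by rw [h]; exact i'.2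
          simp only [this, and_self, dite_true]
          have h' : (⟨(i : ℕ), this⟩ : Fin (wd n x)) = i' := Fin.ext h
          rw [h', hg]
        · rintro ⟨j, hj⟩
          by_cases h1 : j = i ∧ (i : ℕ) < wd n d.2
          · rw [dif_pos h1] at hj
            obtain ⟨t, x⟩ := d
            simp only [Sum.inr.injEq, Prod.mk.injEq, Sigma.mk.injEq] at hj
            obtain ⟨h3, h4, h5⟩ := hj
            subst h4
            rw [heq_eq_eq] at h5
            refine ⟨Prod.ext h3 (he _), ?_⟩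
            rw [← h5]
          · rw [dif_neg h1] at hj
            simp at hj
  · refine degree_of_param (Gr n e) _
      (fun l => vb (e.symm ((g, x), l)) ⟨i, by have := hk x; omega⟩) ?_ ?_
    · intro j j' hjj
      simp only [Sum.inr.injEq, Sum.inl.injEq, Prod.mk.injEq, EmbeddingLike.apply_eq_iff_eq,
        true_and, and_true] at hjj
      exact hjj
    · rintro (⟨d', i'⟩ | ⟨d', i'⟩ | ⟨g', i'⟩)
      · change False ↔ _
        simp
      · change ((e d').1 = (g, x) ∧ (i' : ℕ) = i) ↔ _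
        constructor
        · rintro ⟨h1, h2⟩
          refine ⟨(e d').2, ?_⟩
          have : e.symm ((g, x), (e d').2) = d' := by
            rw [← h1]; simp
          simp only [this]
          have h' : (⟨(i : ℕ), by have := hk x; omega⟩ : Fin r) = i' := Fin.ext h2.symm
          rw [h']
        · rintro ⟨j, hj⟩
          simp only [Sum.inr.injEq, Sum.inl.injEq, Prod.mk.injEq] at hj
          obtain ⟨h1, h2⟩ := hj
          refine ⟨?_, ?_⟩
          · rw [← h1]; simp
          · rw [← h2]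
      · change False ↔ _
        simp

end

end Run7.h962
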