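import Pool.Agent.Run7.h962.Cycle2

namespace Run7.h962

section
variable {m r : ℕ}

/-- the shift between the cells -/
def sh (m : ℕ) {r : ℕ} (l : Fin r) (x : Fin 3) : ZMod m :=
  if ((l : ℕ) = 0 ∧ x = 2) ∨ ((l : ℕ) = 2 ∧ x = 1) then 1 else 0

/-- the network: `m` cells in a ring, each with `r` triples and three groups -/
def net (m r : ℕ) : (ZMod m × Fin r) × Fin 3 ≃ (ZMod m × Fin 3) × Fin r where
  toFun y := ((y.1.1 + sh m y.1.2 y.2, y.2), y.1.2)
  invFun z := ((z.1.1 - sh m z.2 z.1.2, z.2), z.1.2)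
  left_inv := by rintro ⟨⟨i, l⟩, x⟩; simp
  right_inv := by rintro ⟨⟨i, x⟩, l⟩; simp

lemma net_fst (i : ZMod m) (l : Fin r) (x : Fin 3) :
    (net m r ((i, l), x)).1 = (i + sh m l x, x) := rfl

lemma net_cls (d : (ZMod m × Fin r) × Fin 3) : (net m r d).1.2 = d.2 := rfl

lemma net_twoConn [NeZero m] (hr : 5 ≤ r) : TwoConn (net m r) := by
  intro M hM1 hM2
  by_contra hcon
  push Not at hcon
  -- at most one node is split
  have hone : ∀ n n', n ≠ n' → ¬ Split (net m r) M n ∨ ¬ Split (net m r) M n' := by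
    intro n n' h
    by_cases h1 : Split (net m r) M n
    · exact Or.inr (hcon n n' h h1)
    · exact Or.inl h1
  have htr : ∀ t, ¬ Split (net m r) M (Sum.inl t) → ∀ x y, (M (t, x) ↔ M (t, y)) := by
    intro t ht x y
    by_contra h
    apply ht
    by_cases hx : M (t, x)
    · exact ⟨x, y, hx, fun hy => h ⟨fun _ => hy, fun _ => hx⟩⟩
    · refine ⟨y, x, ?_, hx⟩
      by_contra hy
      exact h ⟨fun h' => absurd h' hx, fun h' => absurd h' hy⟩
  have hgr : ∀ g, ¬ Split (net m r) M (Sum.inr g) → ∀ d d', (net m r d).1 = g →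
      (net m r d').1 = g → (M d ↔ M d') := by
    intro g hg d d' hd hd'
    by_contra h
    apply hg
    by_cases hx : M d
    · exact ⟨d, d', hd, hd', hx, fun hy => h ⟨fun _ => hy, fun _ => hx⟩⟩
    · refine ⟨d', d, hd', hd, ?_, hx⟩
      by_contra hy
      exact h ⟨fun h' => absurd h' hx, fun h' => absurd h' hy⟩
  have hl : ∀ i : ZMod m, ∃ l : Fin r, 3 ≤ (l : ℕ) ∧ ∀ x y, (M ((i, l), x) ↔ M ((i, l), y)) := by
    intro i
    rcases hone (Sum.inl (i, ⟨3, by omega⟩)) (Sum.inl (i, ⟨4, by omega⟩)) (by simp) with h | h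
    · exact ⟨_, by simp, htr _ h⟩
    · exact ⟨⟨4, by omega⟩, by simp, htr _ h⟩
  choose l hl3 hlM using hl
  have hC : ∀ (i : ZMod m) (x : Fin 3), ¬ Split (net m r) M (Sum.inr (i, x)) →
      ∀ d, (net m r d).1 = (i, x) → (M d ↔ M ((i, l i), 0)) := by
    intro i x hs d hd
    rw [← hlM i x 0]
    refine hgr _ hs d _ hd ?_
    rw [net_fst]
    have := hl3 i
    have : sh m (l i) x = 0 := by
      unfold sh; rw [if_neg]; omega
    rw [this, add_zero]
  have sh0 : ∀ x : Fin 3, x ≠ 2 → sh m (⟨0, by omega⟩ : Fin r) x = 0 := by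
    intro x hx; unfold sh; rw [if_neg]; simp [hx]
  have sh02 : sh m (⟨0, by omega⟩ : Fin r) 2 = 1 := by
    unfold sh; rw [if_pos]; simp
  have sh20 : sh m (⟨2, by omega⟩ : Fin r) 0 = 0 := by
    unfold sh; rw [if_neg]; simp
  have sh21 : sh m (⟨2, by omega⟩ : Fin r) 1 = 1 := by
    unfold sh; rw [if_pos]; simp
  have hstep : ∀ i : ZMod m, (M ((i, l i), 0) ↔ M ((i + 1, l (i + 1)), 0)) := by
    intro i
    by_cases hA : ¬ Split (net m r) M (Sum.inr (i + 1, 2)) ∧
        ¬ Split (net m r) M (Sum.inl (i, ⟨0, by omega⟩))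
    · obtain ⟨hA1, hA2⟩ := hA
      have c1 := hC (i + 1) 2 hA1 ((i, ⟨0, by omega⟩), 2) (by rw [net_fst, sh02])
      have hy : ∃ y : Fin 3, y ≠ 2 ∧ ¬ Split (net m r) M (Sum.inr (i, y)) := by
        rcases hone (Sum.inr (i, 0)) (Sum.inr (i, 1)) (by simp) with h | h
        · exact ⟨0, by decide, h⟩
        · exact ⟨1, by decide, h⟩
      obtain ⟨y, hy2, hy⟩ := hy
      have c2 := hC i y hy ((i, ⟨0, by omega⟩), y) (by rw [net_fst, sh0 y hy2, add_zero])
      have c3 := htr _ hA2 y 2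
      exact c2.symm.trans (c3.trans c1)
    · have hB : ∀ n : (ZMod m × Fin r) ⊕ (ZMod m × Fin 3), n ≠ Sum.inr (i + 1, 2) →
          n ≠ Sum.inl (i, ⟨0, by omega⟩) → ¬ Split (net m r) M n := by
        intro n h1 h2 hn
        apply hA
        exact ⟨(hone n _ h1).resolve_left (fun h => h hn),
          (hone n _ h2).resolve_left (fun h => h hn)⟩
      have c1 := hC i 0 (hB _ (by simp) (by simp)) ((i, ⟨2, by omega⟩), 0)
        (by rw [net_fst, sh20, add_zero])
      have c2 := htr (i, ⟨2, by omega⟩) (hB _ (by simp) (by simp)) 0 1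
      have c3 := hC (i + 1) 1 (hB _ (by simp) (by simp)) ((i, ⟨2, by omega⟩), 1)
        (by rw [net_fst, sh21])
      exact c1.symm.trans (c2.trans c3)
  have hall : ∀ i : ZMod m, (M ((i, l i), 0) ↔ M ((0, l 0), 0)) := by
    have : ∀ n : ℕ, (M (((n : ZMod m), l (n : ZMod m)), 0) ↔ M ((0, l 0), 0)) := by
      intro n
      induction n with
      | zero => simp
      | succ n ih =>
        rw [← ih, Nat.cast_succ]
        exact (hstep _).symm
    intro i
    have h := this i.val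
    rwa [ZMod.natCast_val, ZMod.cast_id] at h
  have hfin : ∀ d, (M d ↔ M ((0, l 0), 0)) := by
    rintro ⟨⟨i, l'⟩, x⟩
    by_cases hs : Split (net m r) M (Sum.inr (net m r ((i, l'), x)).1)
    · have hns : ∀ n, n ≠ Sum.inr (net m r ((i, l'), x)).1 → ¬ Split (net m r) M n := by
        intro n hn
        exact (hone n _ hn).resolve_right (fun h => h hs)
      obtain ⟨y, hy⟩ : ∃ y : Fin 3, y ≠ x := by
        have : ∀ x : Fin 3, ∃ y, y ≠ x := by decide
        exact this x
      have c1 := htr (i, l') (hns _ (by simp)) x y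
      have c2 := hC _ y (hns (Sum.inr (i + sh m l' y, y)) (by
        rw [net_fst]; simp [hy])) ((i, l'), y) (net_fst _ _ _)
      exact c1.trans (c2.trans (hall _))
    · have c2 := hC _ x (by rw [net_fst] at hs; exact hs) ((i, l'), x) (net_fst _ _ _)
      exact c2.trans (hall _)
  obtain ⟨d, hd⟩ := hM1
  obtain ⟨d', hd'⟩ := hM2
  exact hd' ((hfin d').2 ((hfin d).1 hd))

end

end Run7.h962
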