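import Pool.Agent.Run7.h962.Graph

namespace Run7.h962

section
variable {T G' : Type} {r : ℕ} {n : Fin 3 → ℕ} (e : T × Fin 3 ≃ (G' × Fin 3) × Fin r)

/-- the node (triple or group) of a vertex -/
def node : Vt T G' r n → T ⊕ (G' × Fin 3)
  | Sum.inl (d, _) => Sum.inl d.1
  | Sum.inr (Sum.inl (d, _)) => Sum.inr (e d).1
  | Sum.inr (Sum.inr (g, y)) => Sum.inr (g, y.1)

/-- a set `M` of blocks splits a node if the node has a block in `M` and a block outside `M` -/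
def Split (M : T × Fin 3 → Prop) : T ⊕ (G' × Fin 3) → Prop
  | Sum.inl t => ∃ x y, M (t, x) ∧ ¬ M (t, y)
  | Sum.inr g => ∃ d d', (e d).1 = g ∧ (e d').1 = g ∧ M d ∧ ¬ M d'

/-- every nonconstant two-colouring of the blocks splits at least two nodes -/
def TwoConn : Prop := ∀ M : T × Fin 3 → Prop, (∃ d, M d) → (∃ d, ¬ M d) →
  ∃ c c', c ≠ c' ∧ Split e M c ∧ Split e M c'

lemma prt_prt (hk : ∀ x, wd n x ≤ r) (d : T × Fin 3) (i : Fin r) (hi : (i : ℕ) < wd n d.2) :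
    prt hk (prt hk d i).1 (prt hk d i).2 = (d, i) := by
  have h := (adj_prt hk d i hi (prt hk d i).1 (prt hk d i).2).2 rfl
  have h2 := hubR_symm h
  have h3 := hubR_lt h2
  exact ((adj_prt hk _ _ h3 d i).1 h2).symm

lemma prt_adj (hk : ∀ x, wd n x ≤ r) (d : T × Fin 3) (i : Fin r) (hi : (i : ℕ) < wd n d.2) :
    (Gr n e).Adj (va d i) (Sum.inl (prt hk d i)) :=
  (adj_prt hk d i hi (prt hk d i).1 (prt hk d i).2).2 rfl

lemma prt_fst (hk : ∀ x, wd n x ≤ r) (d : T × Fin 3) (i : Fin r) :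
    (prt hk d i).1.1 = d.1 := by
  unfold prt; split_ifs <;> rfl

lemma prt_ne (hk : ∀ x, wd n x ≤ r) (d : T × Fin 3) (i : Fin r) :
    (prt hk d i).1.2 ≠ d.2 := by
  unfold prt
  split_ifs
  · exact f3d d.2
  · exact f3e d.2

lemma prt_of_lt (hk : ∀ x, wd n x ≤ r) (d : T × Fin 3) (i : Fin r) (h : (i : ℕ) < n d.2) :
    prt hk d i = ((d.1, d.2 + 1), ⟨i + n (d.2 + 1), by
      have := hk (d.2 + 1); rw [wd_succ] at this; omega⟩) := by
  unfold prt; rw [dif_pos h]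

lemma prt_of_ge (hk : ∀ x, wd n x ≤ r) (d : T × Fin 3) (i : Fin r) (h : ¬ (i : ℕ) < n d.2) :
    prt hk d i = ((d.1, d.2 - 1), ⟨i - n d.2, by omega⟩) := by
  unfold prt; rw [dif_neg h]

/-- in a two-coloured triple there is an odd one out -/
lemma odd_one (Q : Fin 3 → Prop) (x y : Fin 3) (hx : Q x) (hy : ¬ Q y) :
    ∃ z, ∀ w, w ≠ z → ¬ (Q w ↔ Q z) := by
  by_contra hcon
  push Not at hcon
  have key : ∀ x y z : Fin 3, x ≠ y → x ≠ z → y ≠ z → ∀ v, v = x ∨ v = y ∨ v = z := by decide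
  have hxy : x ≠ y := by rintro rfl; exact hy hx
  obtain ⟨z, hz⟩ : ∃ z : Fin 3, z ≠ x ∧ z ≠ y := by
    revert hxy; clear * -; revert x y; decide
  by_cases hQz : Q z
  · obtain ⟨w, hw, hw2⟩ := hcon y
    rcases key x y z hxy hz.1.symm hz.2.symm w with h | h | h
    · subst h; exact hy (hw2.1 hx)
    · exact hw h
    · subst h; exact hy (hw2.1 hQz)
  · obtain ⟨w, hw, hw2⟩ := hcon x
    rcases key x y z hxy hz.1.symm hz.2.symm w with h | h | h
    · exact hw h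
    · subst h; exact hy (hw2.2 hx)
    · subst h; exact hQz (hw2.2 hx)

end

end Run7.h962
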