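import Pool.Agent.Run7.h962.Node

namespace Run7.h962

/-- an injective family of `m` vertices is not contained in `R` -/
lemma exists_not_mem {V : Type} [DecidableEq V] {m : ℕ} (R : Finset V) (hR : R.card < m)
    (f : Fin m → V) (hf : Function.Injective f) : ∃ i, f i ∉ R := by
  by_contra h
  push Not at h
  have : (Finset.univ.image f).card ≤ R.card :=
    Finset.card_le_card (by intro v hv; simp at hv; obtain ⟨i, rfl⟩ := hv; exact h i)
  rw [Finset.card_image_of_injective _ hf] at this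
  simp at this
  omega

lemma exists_avoid {r : ℕ} (hr : 3 ≤ r) (i j : Fin r) : ∃ l : Fin r, l ≠ i ∧ l ≠ j := by
  by_cases h0 : (⟨0, by omega⟩ : Fin r) ≠ i ∧ (⟨0, by omega⟩ : Fin r) ≠ j
  · exact ⟨_, h0⟩
  · by_cases h1 : (⟨1, by omega⟩ : Fin r) ≠ i ∧ (⟨1, by omega⟩ : Fin r) ≠ j
    · exact ⟨_, h1⟩
    · refine ⟨⟨2, by omega⟩, ?_, ?_⟩
      · intro h
        simp only [ne_eq, Fin.ext_iff] at h0 h1 h
        omega
      · intro h
        simp only [ne_eq, Fin.ext_iff] at h0 h1 h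
        omega

section
variable {T G' : Type} {r : ℕ} {n : Fin 3 → ℕ} (e : T × Fin 3 ≃ (G' × Fin 3) × Fin r)

lemma va_inj (d : T × Fin 3) :
    Function.Injective (fun i : Fin r => (va d i : Vt T G' r n)) := by
  intro i j h; simpa using h

lemma vb_inj (d : T × Fin 3) :
    Function.Injective (fun i : Fin r => (vb d i : Vt T G' r n)) := by
  intro i j h; simpa using h

lemma inR_of_ne {x : Fin 3} {i j : Fin r} (h : i ≠ j) : inR n x i j := fun h' => h h'.1

variable [DecidableEq T] [DecidableEq G']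

/-- the vertex part of a block is constant -/
lemma block_ab (hn : ∀ x, 2 ≤ n x) (hk : ∀ x, wd n x ≤ r) (he : ∀ d, (e d).1.2 = d.2)
    (R : Finset (Vt T G' r n)) (hR : R.card < r)
    (P : Vt T G' r n → Prop)
    (hP : ∀ u v, u ∉ R → v ∉ R → (Gr n e).Adj u v → (P u ↔ P v))
    (d : T × Fin 3) (i j : Fin r) (hi : (va d i : Vt T G' r n) ∉ R)
    (hj : (vb d j : Vt T G' r n) ∉ R) : P (va d i) ↔ P (vb d j) := by
  classical
  have hr4 : 4 ≤ r := by
    have h1 := hk 0
    have h2 := hn 0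
    have h3 := hn (0 + 2)
    unfold wd at h1
    omega
  have hw4 : n d.2 + 2 ≤ wd n d.2 := by
    have h3 := hn (d.2 + 2)
    unfold wd
    omega
  have hn2 := hn d.2
  by_contra hne
  have hij : i = j ∧ (i : ℕ) < wd n d.2 := by
    by_contra h
    exact hne (hP _ _ hi hj ((adj_ab e d d i j).2 ⟨rfl, h⟩))
  obtain ⟨rfl, hi2⟩ := hij
  -- step 1
  have hB : ∀ j', j' ≠ i → (vb d j' : Vt T G' r n) ∉ R → (P (va d i) ↔ P (vb d j')) := by
    intro j' hj' h
    exact hP _ _ hi h ((adj_ab e d d i j').2 ⟨rfl, inR_of_ne hj'.symm⟩)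
  have hA : ∀ i', i' ≠ i → (va d i' : Vt T G' r n) ∉ R → (P (va d i') ↔ P (vb d i)) := by
    intro i' hi' h
    exact hP _ _ h hj ((adj_ab e d d i' i).2 ⟨rfl, inR_of_ne hi'⟩)
  -- step 2
  have hstep : (∀ i', i' ≠ i → (va d i' : Vt T G' r n) ∈ R) ∨
      (∀ j', j' ≠ i → (vb d j' : Vt T G' r n) ∈ R) := by
    by_contra hcon
    push Not at hcon
    obtain ⟨⟨i', hi', hi'R⟩, ⟨j', hj', hj'R⟩⟩ := hcon
    have e1 := hA i' hi' hi'R
    have e2 := hB j' hj' hj'R
    by_cases hin : inR n d.2 i' j'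
    · have e3 := hP _ _ hi'R hj'R ((adj_ab e d d i' j').2 ⟨rfl, hin⟩)
      exact hne (e2.trans (e3.symm.trans e1))
    · have : i' = j' := by
        by_contra h; exact hin (inR_of_ne h)
      subst this
      have hAll : ∀ l, l ≠ i → l ≠ i' → (va d l : Vt T G' r n) ∈ R := by
        intro l h1 h2
        by_contra h3
        have e4 := hA l h1 h3
        have e5 := hP _ _ h3 hj'R ((adj_ab e d d l i').2 ⟨rfl, inR_of_ne h2⟩)
        exact hne (e2.trans (e5.symm.trans e4))
      have hBll : ∀ l, l ≠ i → l ≠ i' → (vb d l : Vt T G' r n) ∈ R := by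
        intro l h1 h2
        by_contra h3
        have e4 := hB l h1 h3
        have e5 := hP _ _ hi'R h3 ((adj_ab e d d i' l).2 ⟨rfl, inR_of_ne h2.symm⟩)
        exact hne (e4.trans (e5.symm.trans e1))
      have hcard : 2 * (r - 2) ≤ R.card := by
        have hS : ((Finset.univ : Finset (Fin r)) \ {i, i'}).card = r - 2 := by
          rw [Finset.card_sdiff_of_subset (Finset.subset_univ _), Finset.card_pair hi'.symm]
          simp
        have hsub : ((Finset.univ : Finset (Fin r)) \ {i, i'}).image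
            (fun l => (va d l : Vt T G' r n)) ∪ ((Finset.univ : Finset (Fin r)) \ {i, i'}).image
            (fun l => (vb d l : Vt T G' r n)) ⊆ R := by
          intro v hv
          simp only [Finset.mem_union, Finset.mem_image, Finset.mem_sdiff, Finset.mem_univ,
            true_and, Finset.mem_insert, Finset.mem_singleton, not_or] at hv
          rcases hv with ⟨l, ⟨h1, h2⟩, rfl⟩ | ⟨l, ⟨h1, h2⟩, rfl⟩
          · exact hAll l h1 h2
          · exact hBll l h1 h2
        have := Finset.card_le_card hsub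
        rw [Finset.card_union_of_disjoint, Finset.card_image_of_injective _ (va_inj d),
          Finset.card_image_of_injective _ (vb_inj d), hS] at this
        · omega
        · rw [Finset.disjoint_left]
          intro v h1 h2
          simp only [Finset.mem_image] at h1 h2
          obtain ⟨_, _, rfl⟩ := h1
          obtain ⟨_, _, h⟩ := h2
          cases h
      omega
  have hSc : ((Finset.univ : Finset (Fin r)).erase i).card = r - 1 := by
    rw [Finset.card_erase_of_mem (Finset.mem_univ _)]; simp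
  rcases hstep with hs | hs
  · -- R is the a-side minus i
    have hReq : ((Finset.univ : Finset (Fin r)).erase i).image
        (fun l => (va d l : Vt T G' r n)) = R := by
      apply Finset.eq_of_subset_of_card_le
      · intro v hv
        simp only [Finset.mem_image, Finset.mem_erase, Finset.mem_univ, and_true] at hv
        obtain ⟨l, h1, rfl⟩ := hv
        exact hs l h1
      · rw [Finset.card_image_of_injective _ (va_inj d), hSc]; omega
    have hmem : ∀ v : Vt T G' r n, (∀ l, v ≠ va d l) → v ∉ R := by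
      intro v hv h
      rw [← hReq] at h
      simp only [Finset.mem_image] at h
      obtain ⟨l, _, rfl⟩ := h
      exact hv l rfl
    -- another block in the group
    obtain ⟨l', hl'⟩ : ∃ l' : Fin r, l' ≠ (e d).2 :=
      (exists_avoid (by omega) (e d).2 (e d).2).imp fun _ h => h.1
    set d' := e.symm ((e d).1, l') with hd'
    have hd'ne : d' ≠ d := by
      intro h
      have : e d' = e d := by rw [h]
      rw [hd', Equiv.apply_symm_apply] at this
      exact hl' (by rw [← this])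
    have hed : (e d).1 = ((e d).1.1, d.2) := Prod.ext rfl (he d)
    have hg' : (e d').1 = ((e d).1.1, d.2) := by rw [hd']; simp [← he d]
    obtain ⟨j', hj'i, hj'2⟩ : ∃ j' : Fin r, j' ≠ i ∧ (j' : ℕ) < wd n d.2 := by
      by_cases h0 : (⟨0, by omega⟩ : Fin r) ≠ i
      · exact ⟨_, h0, by simp; omega⟩
      · refine ⟨⟨1, by omega⟩, ?_, by simp; omega⟩
        intro h; simp only [ne_eq, not_not, Fin.ext_iff] at h0 h; omega
    obtain ⟨l, hl1, hl2⟩ := exists_avoid (by omega) i j'
    have hna : (va d' l : Vt T G' r n) ∉ R := hmem _ (by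
      intro l2 h; simp only [Sum.inl.injEq, Prod.mk.injEq] at h; exact hd'ne h.1)
    have hnb : ∀ (d2 : T × Fin 3) (x : Fin r), (vb d2 x : Vt T G' r n) ∉ R := fun d2 x =>
      hmem _ (by intro l2 h; cases h)
    have hnq : ∀ (g : G') (y : Fin 3) (x : Fin (wd n y)), (vq g y x : Vt T G' r n) ∉ R :=
      fun g y x => hmem _ (by intro l2 h; cases h)
    have c1 := hP _ _ (hnb d i) (hnq (e d).1.1 d.2 ⟨i, hi2⟩)
      ((adj_bq e d i _ _ _).2 ⟨hed, rfl⟩)
    have c2 := hP _ _ (hnq (e d).1.1 d.2 ⟨i, hi2⟩) (hnb d' i)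
      ((adj_qb e d' i _ _ _).2 ⟨hg', rfl⟩)
    have c3 := hP _ _ (hnb d j') (hnq (e d).1.1 d.2 ⟨j', hj'2⟩)
      ((adj_bq e d j' _ _ _).2 ⟨hed, rfl⟩)
    have c4 := hP _ _ (hnq (e d).1.1 d.2 ⟨j', hj'2⟩) (hnb d' j')
      ((adj_qb e d' j' _ _ _).2 ⟨hg', rfl⟩)
    have c5 := hP _ _ hna (hnb d' i) ((adj_ab e d' d' l i).2 ⟨rfl, inR_of_ne hl1⟩)
    have c6 := hP _ _ hna (hnb d' j') ((adj_ab e d' d' l j').2 ⟨rfl, inR_of_ne hl2⟩)
    have c7 := hB j' hj'i (hnb d j')
    exact hne (c7.trans (c3.trans (c4.trans (c6.symm.trans (c5.trans (c2.symm.trans c1.symm))))))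
  · -- R is the b-side minus i
    have hReq : ((Finset.univ : Finset (Fin r)).erase i).image
        (fun l => (vb d l : Vt T G' r n)) = R := by
      apply Finset.eq_of_subset_of_card_le
      · intro v hv
        simp only [Finset.mem_image, Finset.mem_erase, Finset.mem_univ, and_true] at hv
        obtain ⟨l, h1, rfl⟩ := hv
        exact hs l h1
      · rw [Finset.card_image_of_injective _ (vb_inj d), hSc]; omega
    have hmem : ∀ v : Vt T G' r n, (∀ l, v ≠ vb d l) → v ∉ R := by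
      intro v hv h
      rw [← hReq] at h
      simp only [Finset.mem_image] at h
      obtain ⟨l, _, rfl⟩ := h
      exact hv l rfl
    have hna : ∀ (d2 : T × Fin 3) (x : Fin r), (va d2 x : Vt T G' r n) ∉ R := fun d2 x =>
      hmem _ (by intro l2 h; cases h)
    have main : ∀ (i' : Fin r) (D : T × Fin 3) (x x' : Fin r), i' ≠ i →
        (i' : ℕ) < wd n d.2 →
        D ≠ d → prt hk d i = (D, x) → prt hk d i' = (D, x') → False := by
      intro i' D x x' hi' hi'2 hD hx hx'
      obtain ⟨l, hl1, hl2⟩ := exists_avoid (by omega) x x'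
      have hnb : (vb D l : Vt T G' r n) ∉ R := hmem _ (by
        intro l2 h; simp only [Sum.inr.injEq, Sum.inl.injEq, Prod.mk.injEq] at h; exact hD h.1)
      have c1 := hP _ _ (hna d i) (hna D x)
        (by have := prt_adj e hk d i hi2; rwa [hx] at this)
      have c2 := hP _ _ (hna d i') (hna D x')
        (by have := prt_adj e hk d i' hi'2; rwa [hx'] at this)
      have c3 := hP _ _ (hna D x) hnb ((adj_ab e D D x l).2 ⟨rfl, inR_of_ne hl1.symm⟩)
      have c4 := hP _ _ (hna D x') hnb ((adj_ab e D D x' l).2 ⟨rfl, inR_of_ne hl2.symm⟩)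
      have c5 := hA i' hi' (hna d i')
      exact hne (c1.trans (c3.trans (c4.symm.trans (c2.symm.trans c5))))
    have hne1 : (d.1, d.2 + 1) ≠ d := by
      intro h
      exact f3d d.2 (congrArg Prod.snd h)
    have hne2 : (d.1, d.2 - 1) ≠ d := by
      intro h
      exact f3e d.2 (congrArg Prod.snd h)
    by_cases hik : (i : ℕ) < n d.2
    · obtain ⟨i', hi'i, hi'k⟩ : ∃ i' : Fin r, i' ≠ i ∧ (i' : ℕ) < n d.2 := by
        by_cases h0 : (⟨0, by omega⟩ : Fin r) ≠ i
        · exact ⟨_, h0, by simp; omega⟩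
        · refine ⟨⟨1, by omega⟩, ?_, by simp; omega⟩
          intro h; simp only [ne_eq, not_not, Fin.ext_iff] at h0 h; omega
      exact main i' _ _ _ hi'i (by omega) hne1 (prt_of_lt hk d i hik) (prt_of_lt hk d i' hi'k)
    · have hkd := hk d.2
      obtain ⟨i', hi'i, hi'k, hi'2⟩ : ∃ i' : Fin r, i' ≠ i ∧ ¬ (i' : ℕ) < n d.2 ∧
          (i' : ℕ) < wd n d.2 := by
        by_cases h0 : (⟨n d.2, by omega⟩ : Fin r) ≠ i
        · exact ⟨_, h0, by simp, by simp; omega⟩
        · refine ⟨⟨n d.2 + 1, by omega⟩, ?_, by simp, by simp; omega⟩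
          intro h; simp only [ne_eq, not_not, Fin.ext_iff] at h0 h; omega
      exact main i' _ _ _ hi'i hi'2 hne2 (prt_of_ge hk d i hik) (prt_of_ge hk d i' hi'k)

omit [DecidableEq T] [DecidableEq G'] in
/-- the colour of a block -/
def Mb (R : Finset (Vt T G' r n)) (P : Vt T G' r n → Prop) (d : T × Fin 3) : Prop :=
  ∃ i, (va d i : Vt T G' r n) ∉ R ∧ P (va d i)

lemma Mb_a (hn : ∀ x, 2 ≤ n x) (hk : ∀ x, wd n x ≤ r) (he : ∀ d, (e d).1.2 = d.2)
    (R : Finset (Vt T G' r n)) (hR : R.card < r)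
    (P : Vt T G' r n → Prop)
    (hP : ∀ u v, u ∉ R → v ∉ R → (Gr n e).Adj u v → (P u ↔ P v))
    (d : T × Fin 3) (i : Fin r) (hi : (va d i : Vt T G' r n) ∉ R) :
    P (va d i) ↔ Mb R P d := by
  classical
  obtain ⟨j, hj⟩ := exists_not_mem R hR _ (vb_inj d)
  constructor
  · intro h; exact ⟨i, hi, h⟩
  · rintro ⟨i', hi', h⟩
    exact (block_ab e hn hk he R hR P hP d i j hi hj).2
      ((block_ab e hn hk he R hR P hP d i' j hi' hj).1 h)

lemma Mb_b (hn : ∀ x, 2 ≤ n x) (hk : ∀ x, wd n x ≤ r) (he : ∀ d, (e d).1.2 = d.2)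
    (R : Finset (Vt T G' r n)) (hR : R.card < r)
    (P : Vt T G' r n → Prop)
    (hP : ∀ u v, u ∉ R → v ∉ R → (Gr n e).Adj u v → (P u ↔ P v))
    (d : T × Fin 3) (i : Fin r) (hi : (vb d i : Vt T G' r n) ∉ R) :
    P (vb d i) ↔ Mb R P d := by
  classical
  obtain ⟨j, hj⟩ := exists_not_mem R hR _ (va_inj d)
  rw [← Mb_a e hn hk he R hR P hP d j hj]
  exact (block_ab e hn hk he R hR P hP d j i hj hi).symm

omit [DecidableEq T] [DecidableEq G'] in
lemma prt_inj (hk : ∀ x, wd n x ≤ r) (d : T × Fin 3) (I J : Fin (wd n d.2))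
    (h : prt hk d ⟨I, lt_of_lt_of_le I.2 (hk _)⟩ = prt hk d ⟨J, lt_of_lt_of_le J.2 (hk _)⟩) :
    I = J := by
  have h1 := prt_prt hk d ⟨I, lt_of_lt_of_le I.2 (hk _)⟩ I.2
  have h2 := prt_prt hk d ⟨J, lt_of_lt_of_le J.2 (hk _)⟩ J.2
  rw [h, h2] at h1
  simp only [Prod.mk.injEq, Fin.mk.injEq, true_and] at h1
  exact Fin.ext h1.symm

omit [DecidableEq T] [DecidableEq G'] in
lemma prt_ne' (hk : ∀ x, wd n x ≤ r) (d : T × Fin 3) (i j : Fin r) : prt hk d i ≠ (d, j) := by
  intro h
  have := prt_ne hk d i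
  rw [h] at this
  exact this rfl

variable [Fintype T] [Fintype G']

/-- a split node contains at least `wd n z` vertices of `R`, for some `z` -/
lemma split_card (hn : ∀ x, 2 ≤ n x) (hk : ∀ x, wd n x ≤ r) (he : ∀ d, (e d).1.2 = d.2)
    (R : Finset (Vt T G' r n)) (hR : R.card < r)
    (P : Vt T G' r n → Prop)
    (hP : ∀ u v, u ∉ R → v ∉ R → (Gr n e).Adj u v → (P u ↔ P v))
    (c : T ⊕ (G' × Fin 3)) (hc : Split e (Mb R P) c) :
    ∃ z, wd n z ≤ (R.filter (fun v => node e v = c)).card := by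
  classical
  have ma := Mb_a e hn hk he R hR P hP
  have mb := Mb_b e hn hk he R hR P hP
  -- it suffices to have an injective family
  suffices h : ∃ z, ∃ f : Fin (wd n z) → Vt T G' r n, Function.Injective f ∧
      ∀ i, f i ∈ R ∧ node e (f i) = c by
    obtain ⟨z, f, hf, hf2⟩ := h
    refine ⟨z, ?_⟩
    have : (Finset.univ.image f).card ≤ (R.filter (fun v => node e v = c)).card :=
      Finset.card_le_card (by
        intro v hv
        simp only [Finset.mem_image, Finset.mem_univ, true_and] at hv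
        obtain ⟨i, rfl⟩ := hv
        exact Finset.mem_filter.2 (hf2 i))
    rw [Finset.card_image_of_injective _ hf] at this
    simpa using this
  rcases c with t | g
  · obtain ⟨x, y, hx, hy⟩ := hc
    obtain ⟨z, hz⟩ := odd_one (fun x => Mb R P (t, x)) x y hx hy
    have lt1 : ∀ I : Fin (wd n z), (I : ℕ) < r := fun I => lt_of_lt_of_le I.2 (hk z)
    have key : ∀ I : Fin (wd n z), ∃ v : Vt T G' r n, v ∈ R ∧
        (v = va (t, z) ⟨I, lt1 I⟩ ∨ v = Sum.inl (prt hk (t, z) ⟨I, lt1 I⟩)) := by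
      intro I
      by_contra hcon
      push Not at hcon
      have h1 : (va (t, z) ⟨I, lt1 I⟩ : Vt T G' r n) ∉ R := fun h => (hcon _ h).1 rfl
      have h2 : (Sum.inl (prt hk (t, z) ⟨I, lt1 I⟩) : Vt T G' r n) ∉ R :=
        fun h => (hcon _ h).2 rfl
      have h3 := hP _ _ h1 h2 (prt_adj e hk (t, z) ⟨I, lt1 I⟩ I.2)
      have h4 := ma _ _ h1
      have h5 := ma (prt hk (t, z) ⟨I, lt1 I⟩).1 (prt hk (t, z) ⟨I, lt1 I⟩).2 h2
      have h6 : (prt hk (t, z) ⟨I, lt1 I⟩).1
          = (t, (prt hk (t, z) ⟨I, lt1 I⟩).1.2) :=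
        Prod.ext (prt_fst hk _ _) rfl
      have h5' : P (Sum.inl (prt hk (t, z) ⟨I, lt1 I⟩)) ↔
          Mb R P (t, (prt hk (t, z) ⟨I, lt1 I⟩).1.2) := by
        rw [← h6]; exact h5
      exact hz _ (prt_ne hk (t, z) ⟨I, lt1 I⟩) (h5'.symm.trans (h3.symm.trans h4))
    choose f hfR hf using key
    refine ⟨z, f, ?_, ?_⟩
    · intro I J hIJ
      have hI := hf I
      have hJ := hf J
      rw [hIJ] at hI
      rcases hI with hI | hI <;> rcases hJ with hJ | hJ
      · rw [hI] at hJ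
        simp only [Sum.inl.injEq, Prod.mk.injEq, Fin.mk.injEq, true_and] at hJ
        exact Fin.ext hJ
      · rw [hI] at hJ
        exact absurd (Sum.inl.inj hJ).symm (prt_ne' hk _ _ _)
      · rw [hI] at hJ
        exact absurd (Sum.inl.inj hJ) (prt_ne' hk _ _ _)
      · rw [hI] at hJ
        exact prt_inj hk (t, z) I J (Sum.inl.inj hJ)
    · intro I
      refine ⟨hfR I, ?_⟩
      rcases hf I with h | h
      · rw [h]; rfl
      · rw [h]
        change Sum.inl (prt hk (t, z) ⟨I, lt1 I⟩).1.1 = _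
        rw [prt_fst]
  · obtain ⟨g, z⟩ := g
    obtain ⟨d, d', hd, hd', hM, hM'⟩ := hc
    have lt1 : ∀ I : Fin (wd n z), (I : ℕ) < r := fun I => lt_of_lt_of_le I.2 (hk z)
    have key : ∀ I : Fin (wd n z), ∃ v : Vt T G' r n, v ∈ R ∧
        (v = vb d ⟨I, lt1 I⟩ ∨ v = vq g z I ∨ v = vb d' ⟨I, lt1 I⟩) := by
      intro I
      by_contra hcon
      push Not at hcon
      have h1 : (vb d ⟨I, lt1 I⟩ : Vt T G' r n) ∉ R := fun h => (hcon _ h).1 rfl
      have h2 : (vq g z I : Vt T G' r n) ∉ R := fun h => (hcon _ h).2.1 rfl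
      have h3 : (vb d' ⟨I, lt1 I⟩ : Vt T G' r n) ∉ R := fun h => (hcon _ h).2.2 rfl
      have c1 := hP _ _ h1 h2 ((adj_bq e d _ _ _ _).2 ⟨hd, rfl⟩)
      have c2 := hP _ _ h2 h3 ((adj_qb e d' _ _ _ _).2 ⟨hd', rfl⟩)
      have c3 := mb _ _ h1
      have c4 := mb _ _ h3
      exact hM' (c4.1 (c2.1 (c1.1 (c3.2 hM))))
    choose f hfR hf using key
    refine ⟨z, f, ?_, ?_⟩
    · intro I J hIJ
      have hI := hf I
      have hJ := hf J
      rw [hIJ] at hI
      rcases hI with hI | hI | hI <;> rcases hJ with hJ | hJ | hJ <;> rw [hI] at hJ <;>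
        simp only [Sum.inl.injEq, Sum.inr.injEq, Prod.mk.injEq, Fin.mk.injEq, reduceCtorEq,
          Sigma.mk.injEq, heq_eq_eq, true_and] at hJ
      · exact Fin.ext hJ
      · exact Fin.ext hJ.2
      · exact hJ
      · exact Fin.ext hJ.2
      · exact Fin.ext hJ
    · intro I
      refine ⟨hfR I, ?_⟩
      rcases hf I with h | h | h
      · rw [h]; change Sum.inr (e d).1 = _; rw [hd]
      · rw [h]; rfl
      · rw [h]; change Sum.inr (e d').1 = _; rw [hd']

theorem vconst (hn : ∀ x, 2 ≤ n x) (hk : ∀ x, wd n x ≤ r) (he : ∀ d, (e d).1.2 = d.2)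
    (hw : ∀ x, r ≤ 2 * wd n x) (hconn : TwoConn e)
    (R : Finset (Vt T G' r n)) (hR : R.card < r) (P : Vt T G' r n → Prop)
    (hP : ∀ u v, u ∉ R → v ∉ R → (Gr n e).Adj u v → (P u ↔ P v)) :
    ∀ u v, u ∉ R → v ∉ R → (P u ↔ P v) := by
  classical
  have ma := Mb_a e hn hk he R hR P hP
  have mb := Mb_b e hn hk he R hR P hP
  have hconst : (∀ d, Mb R P d) ∨ (∀ d, ¬ Mb R P d) := by
    by_contra hcon
    push Not at hcon
    obtain ⟨c, c', hcc, h1, h2⟩ := hconn (Mb R P) hcon.2 hcon.1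
    obtain ⟨z1, c1⟩ := split_card e hn hk he R hR P hP c h1
    obtain ⟨z2, c2⟩ := split_card e hn hk he R hR P hP c' h2
    have c3 : (R.filter (fun v => node e v = c)).card + (R.filter (fun v => node e v = c')).card
        ≤ R.card := by
      rw [← Finset.card_union_of_disjoint]
      · exact Finset.card_le_card (Finset.union_subset (Finset.filter_subset _ _)
          (Finset.filter_subset _ _))
      · rw [Finset.disjoint_left]
        intro v hv hv'
        simp only [Finset.mem_filter] at hv hv'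
        exact hcc (hv.2.symm.trans hv'.2)
    have := hw z1
    have := hw z2
    omega
  have mq : ∀ g x i, (vq g x i : Vt T G' r n) ∉ R → ∃ d, (P (vq g x i) ↔ Mb R P d) := by
    intro g x i hgi
    have lt1 : (i : ℕ) < r := lt_of_lt_of_le i.2 (hk x)
    obtain ⟨l, hl⟩ := exists_not_mem R hR
      (fun l => (vb (e.symm ((g, x), l)) ⟨i, lt1⟩ : Vt T G' r n)) (by
        intro l l' h
        simp only [Sum.inr.injEq, Sum.inl.injEq, Prod.mk.injEq, EmbeddingLike.apply_eq_iff_eq,
          true_and, and_true] at h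
        exact h)
    refine ⟨e.symm ((g, x), l), ?_⟩
    rw [← mb _ _ hl]
    exact hP _ _ hgi hl ((adj_qb e _ _ _ _ _).2 ⟨by simp, rfl⟩)
  have hall : ∀ u, u ∉ R → ∃ d, (P u ↔ Mb R P d) := by
    rintro (⟨d, i⟩ | ⟨d, i⟩ | ⟨g, x, i⟩) hu
    · exact ⟨d, ma d i hu⟩
    · exact ⟨d, mb d i hu⟩
    · exact mq g x i hu
  intro u v hu hv
  obtain ⟨d, hd⟩ := hall u hu
  obtain ⟨d', hd'⟩ := hall v hv
  rw [hd, hd']
  rcases hconst with h | h
  · exact ⟨fun _ => h _, fun _ => h _⟩
  · exact ⟨fun h' => absurd h' (h _), fun h' => absurd h' (h _)⟩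

end

end Run7.h962
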